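import Pool.Agent.H8.Ptak.Shift

set_option autoImplicit false

open Set Complex Polynomial MeasureTheory
open scoped ComplexConjugate

namespace Pool.Agent.H8.Ptak

/-- the estimate transported by mixtures -/
def Bound (g : ℂ[X]) (n : ℕ) (s : Multiset ℂ) (S : ℝ) : Prop :=
  ∀ q ∈ degreeLT ℂ n, ∀ t ∈ degreeLT ℂ n,
    ‖G s q (sharp g * t)‖ ≤ S / 2 * ((G s q q).re + (G s t t).re)

section
variable {E : Type} [NormedAddCommGroup E] [InnerProductSpace ℂ E] [FiniteDimensional ℂ E]

/-- numerators of the vector `x` -/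
theorem exists_num (T : E →L[ℂ] E) (l : E →ₗ[ℂ] ℂ) (s : Multiset ℂ) :
    ∃ L : E →ₗ[ℂ] ℂ[X], (∀ x, L x ∈ degreeLT ℂ (Multiset.card s)) ∧
      ∀ x, X * L (T x) = L x - C (l x) * ps s + C (l ((aeval T (pp s)) x)) * X ^ (Multiset.card s) := by
  induction s using Multiset.induction_on with
  | empty =>
    refine ⟨0, fun x => by simp, fun x => ?_⟩
    simp [ps_zero, pp]
  | cons a s ih =>
    obtain ⟨L, hL1, hL2⟩ := ih
    let L' : E →ₗ[ℂ] ℂ[X] := 
      { toFun := fun x => C (l x) * ps s + X * L (T x - a • x)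
        map_add' := fun x y => by
          have e1 : T (x + y) - a • (x + y) = (T x - a • x) + (T y - a • y) := by
            rw [map_add, smul_add]; abel
          rw [e1, map_add l, map_add L, C_add]; ring
        map_smul' := fun c x => by
          have e1 : T (c • x) - a • (c • x) = c • (T x - a • x) := by
            rw [map_smul, smul_sub, smul_comm]
          rw [e1, map_smul l, map_smul L, RingHom.id_apply, smul_eq_mul, C_mul, smul_add, mul_smul_comm,
            smul_eq_C_mul, smul_eq_C_mul]
          ring }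
    have hL' : ∀ x, L' x = C (l x) * ps s + X * L (T x - a • x) := fun x => rfl
    refine ⟨L', fun x => ?_, fun x => ?_⟩
    · rw [hL', Multiset.card_cons]
      refine Submodule.add_mem _ ?_ ?_
      · rw [← smul_eq_C_mul]
        refine Submodule.smul_mem _ _ ?_
        rw [mem_degreeLT, degree_lt_iff_coeff_zero]
        intro m hm
        exact coeff_eq_zero_of_natDegree_lt (by have := ps_natDegree s; omega)
      · have := hL1 (T x - a • x)
        rw [mem_degreeLT, degree_lt_iff_coeff_zero] at *
        intro m hm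
        obtain ⟨m, rfl⟩ : ∃ k, m = k + 1 := ⟨m - 1, by omega⟩
        rw [coeff_X_mul]
        exact this m (by omega)
    · have h1 := hL2 (T x - a • x)
      have e2 : T (T x) - a • T x = T (T x - a • x) := by rw [map_sub, map_smul]
      rw [hL', hL', e2, pp_cons, mul_comm (X - C a) (pp s), map_mul, Multiset.card_cons, ps_cons]
      have e3 : (aeval T (pp s) * aeval T (X - C a)) x = aeval T (pp s) (T x - a • x) := by
        rw [mul_apply_eq_comp]
        congr 1
        rw [map_sub, aeval_X, aeval_C]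
        rfl
      rw [e3]
      have e4 : C (l (T x - a • x)) = C (l (T x)) - C a * C (l x) := by
        rw [map_sub l, map_smul l, C_sub, smul_eq_mul, C_mul]
      rw [e4] at h1
      rw [pow_succ]
      linear_combination X * h1

variable {s : Multiset ℂ} (hs : ∀ a ∈ s, ‖a‖ < 1)
include hs

theorem num_facts (T : E →L[ℂ] E) (hT : aeval T (pp s) = 0) (l : E →ₗ[ℂ] ℂ) :
    ∃ L : E →ₗ[ℂ] ℂ[X], (∀ x, L x ∈ degreeLT ℂ (Multiset.card s)) ∧
      (∀ x, (L x).coeff 0 = l x) ∧ ∀ x, tau s (L x) = L (T x) := by
  obtain ⟨L, hL1, hL2⟩ := exists_num T l s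
  have h3 : ∀ x, X * L (T x) = L x - C (l x) * ps s := by
    intro x
    have := hL2 x
    rw [hT] at this
    simpa using this
  have h4 : ∀ x, (L x).coeff 0 = l x := by
    intro x
    have := congrArg (fun p => p.coeff 0) (h3 x)
    simp only [coeff_X_mul_zero, coeff_sub, coeff_C_mul, ps_coeff_zero] at this
    rw [mul_one] at this
    exact (sub_eq_zero.1 this.symm)
  refine ⟨L, hL1, h4, fun x => ?_⟩
  apply tau_eq
  rw [h4]; exact h3 x

theorem aeval_comm (T : E →L[ℂ] E) (L : E →ₗ[ℂ] ℂ[X]) (h : ∀ x, tau s (L x) = L (T x)) (g : ℂ[X]) (x : E) :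
    aeval (tau s) g (L x) = L (aeval T g x) := by
  have h1 : ∀ (n : ℕ) (x : E), (tau s ^ n) (L x) = L ((T ^ n) x) := by
    intro n
    induction n with
    | zero => intro x; simp
    | succ n ih =>
      intro x
      rw [pow_succ, Module.End.mul_apply, h, ih, pow_succ, mul_apply_eq_comp]
  induction g using Polynomial.induction_on' with
  | add p p' hp hp' =>
    rw [map_add, LinearMap.add_apply, hp, hp', map_add, add_apply, map_add]
  | monomial n c =>
    rw [aeval_monomial, aeval_monomial, Module.End.mul_apply, h1, mul_apply_eq_comp]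
    have e1 : ∀ x : ℂ[X], (algebraMap ℂ (Module.End ℂ ℂ[X]) c) x = c • x := fun x => rfl
    have e2 : ∀ x : E, (algebraMap ℂ (E →L[ℂ] E) c) x = c • x := fun x => rfl
    rw [e1, e2, map_smul]

omit hs in
theorem continuous_G_num (L L' : E →ₗ[ℂ] ℂ[X]) (n : ℕ) (hL : ∀ x, L x ∈ degreeLT ℂ n)
    (hL' : ∀ x, L' x ∈ degreeLT ℂ n) (hs : ∀ a ∈ s, ‖a‖ < 1) :
    Continuous fun z : E × E => G s (L z.1) (L' z.2) := by
  have e : ∀ (M : E →ₗ[ℂ] ℂ[X]), (∀ x, M x ∈ degreeLT ℂ n) → ∀ x, M x = ∑ i ∈ Finset.range n, (M x).coeff i • X ^ i := by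
    intro M hM x
    have := hM x
    rw [mem_degreeLT] at this
    rcases Nat.eq_zero_or_pos n with h0 | h0
    · subst h0
      have : M x = 0 := by
        rw [← degree_eq_bot]
        by_contra hne
        have h1 : (0 : WithBot ℕ) ≤ (M x).degree := zero_le_degree_iff.2 (by
          intro h; apply hne; rw [h, degree_zero])
        exact absurd (lt_of_le_of_lt h1 this) (lt_irrefl _)
      simp [this]
    · have h1 : (M x).natDegree < n := by
        by_cases h0 : M x = 0
        · rw [h0, natDegree_zero]; omega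
        · exact (natDegree_lt_iff_degree_lt h0).2 this
      conv_lhs => rw [as_sum_range' (M x) n h1]
      refine Finset.sum_congr rfl fun i _ => ?_
      rw [← C_mul_X_pow_eq_monomial, smul_eq_C_mul]
  have e2 : ∀ z : E × E, G s (L z.1) (L' z.2) =
      ∑ i ∈ Finset.range n, ∑ j ∈ Finset.range n, (L z.1).coeff i * (conj ((L' z.2).coeff j) * G s (X ^ i) (X ^ j)) := by
    intro z
    have hl : ∀ (f : ℕ → ℂ[X]) (t : ℂ[X]) (m : ℕ), G s (∑ i ∈ Finset.range m, f i) t = ∑ i ∈ Finset.range m, G s (f i) t := by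
      intro f t m
      induction m with
      | zero => simp [G_zero_left]
      | succ m ih => rw [Finset.sum_range_succ, G_add_left hs, ih, Finset.sum_range_succ]
    have hr : ∀ (f : ℕ → ℂ[X]) (t : ℂ[X]) (m : ℕ), G s t (∑ i ∈ Finset.range m, f i) = ∑ i ∈ Finset.range m, G s t (f i) := by
      intro f t m
      induction m with
      | zero => simp [G_zero_right]
      | succ m ih => rw [Finset.sum_range_succ, G_add_right hs, ih, Finset.sum_range_succ]
    conv_lhs => rw [e L hL z.1, e L' hL' z.2]
    rw [hl]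
    refine Finset.sum_congr rfl fun i _ => ?_
    rw [hr]
    refine Finset.sum_congr rfl fun j _ => ?_
    rw [G_smul_left, G_smul_right]
  simp_rw [e2]
  have hc : ∀ (M : E →ₗ[ℂ] ℂ[X]) (i : ℕ), Continuous fun x => (M x).coeff i := by
    intro M i
    exact LinearMap.continuous_of_finiteDimensional ((lcoeff ℂ i).comp M)
  refine continuous_finsetSum _ fun i _ => continuous_finsetSum _ fun j _ => ?_
  exact ((hc L i).comp continuous_fst).mul
    ((continuous_conj.comp ((hc L' j).comp continuous_snd)).mul continuous_const)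

end

end Pool.Agent.H8.Ptak
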