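import Pool.Agent.H8.Ptak.Dil

set_option autoImplicit false

open Set Complex Polynomial MeasureTheory Filter Topology
open scoped ComplexConjugate

namespace Pool.Agent.H8.Ptak

section
variable {E : Type} [NormedAddCommGroup E] [InnerProductSpace ℂ E] [FiniteDimensional ℂ E]

/-- defect operator -/
theorem exists_defect (T : E →L[ℂ] E) (hT : ‖T‖ ≤ 1) :
    ∃ D : E →L[ℂ] E, ∀ x y : E, inner ℂ (D y) (D x) = inner ℂ y x - inner ℂ (T y) (T x) := by
  have : CompleteSpace E := FiniteDimensional.complete ℂ E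
  have hpos : (1 - star T * T : E →L[ℂ] E).IsPositive := by
    rw [ContinuousLinearMap.isPositive_def']
    refine ⟨?_, fun x => ?_⟩
    · exact (IsSelfAdjoint.one _).sub (IsSelfAdjoint.star_mul_self T)
    · rw [ContinuousLinearMap.reApplyInnerSelf_apply]
      have h1 : (1 - star T * T : E →L[ℂ] E) x = x - (ContinuousLinearMap.adjoint T) (T x) := rfl
      rw [h1, inner_sub_left, ContinuousLinearMap.adjoint_inner_left]
      have h2 : ‖T x‖ ≤ ‖x‖ := by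
        refine (T.le_opNorm x).trans ?_
        have := norm_nonneg x
        nlinarith
      rw [inner_self_eq_norm_sq_to_K, inner_self_eq_norm_sq_to_K]
      have h3 : RCLike.re (((‖x‖ : ℂ)) ^ 2 - ((‖T x‖ : ℂ)) ^ 2) = ‖x‖ ^ 2 - ‖T x‖ ^ 2 := by
        norm_cast
      show 0 ≤ RCLike.re (((‖x‖ : ℂ)) ^ 2 - ((‖T x‖ : ℂ)) ^ 2)
      rw [h3]
      have := norm_nonneg (T x)
      nlinarith
  have h0 : (0 : E →L[ℂ] E) ≤ 1 - star T * T := (ContinuousLinearMap.nonneg_iff_isPositive _).2 hpos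
  obtain ⟨D, hD⟩ := CStarAlgebra.nonneg_iff_eq_star_mul_self.1 h0
  refine ⟨D, fun x y => ?_⟩
  have h1 : inner ℂ (D y) (D x) = inner ℂ y ((star D * D : E →L[ℂ] E) x) := by
    have : (star D * D : E →L[ℂ] E) x = (ContinuousLinearMap.adjoint D) (D x) := rfl
    rw [this, ContinuousLinearMap.adjoint_inner_right]
  rw [h1, ← hD]
  have h2 : (1 - star T * T : E →L[ℂ] E) x = x - (ContinuousLinearMap.adjoint T) (T x) := rfl
  rw [h2, inner_sub_right, ContinuousLinearMap.adjoint_inner_right]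

theorem norm_le_of_bound (T : E →L[ℂ] E) (hT1 : ‖T‖ ≤ 1) (s : Multiset ℂ) (hs : ∀ a ∈ s, ‖a‖ < 1)
    (hT : aeval T (pp s) = 0) (hTk : Tendsto (fun k : ℕ => T ^ k) atTop (𝓝 0)) (g : ℂ[X]) (S : ℝ)
    (hS : 0 ≤ S) (hB : Bound g (Multiset.card s) s S) : ‖aeval T g‖ ≤ S := by
  obtain ⟨D, hD⟩ := exists_defect T hT1
  let b := stdOrthonormalBasis ℂ E
  let l : Fin (Module.finrank ℂ E) → E →ₗ[ℂ] ℂ := fun i => (innerₛₗ ℂ (b i)).comp D.toLinearMap
  have hl : ∀ i x, l i x = inner ℂ (b i) (D x) := fun i x => rfl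
  choose L hL1 hL2 hL3 using fun i => num_facts hs T hT (l i)
  have hsum : ∀ x y, ∑ i, (L i x).coeff 0 * conj ((L i y).coeff 0) = inner ℂ y x - inner ℂ (T y) (T x) := by
    intro x y
    rw [← hD, ← b.sum_inner_mul_inner]
    refine Finset.sum_congr rfl fun i _ => ?_
    rw [hL2, hL2, hl, hl, inner_conj_symm, mul_comm]
  let Φ : E × E → ℂ := fun z => inner ℂ z.2 z.1 - ∑ i, G s (L i z.1) (L i z.2)
  have hΦT : ∀ x y, Φ (T x, T y) = Φ (x, y) := by
    intro x y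
    simp only [Φ]
    have : ∑ i, G s (L i (T x)) (L i (T y)) = ∑ i, G s (L i x) (L i y) - (inner ℂ y x - inner ℂ (T y) (T x)) := by
      rw [← hsum, ← Finset.sum_sub_distrib]
      refine Finset.sum_congr rfl fun i _ => ?_
      rw [← hL3, ← hL3, G_tau_tau hs]
    rw [this]; ring
  have hΦk : ∀ (k : ℕ) x y, Φ ((T ^ k) x, (T ^ k) y) = Φ (x, y) := by
    intro k
    induction k with
    | zero => intro x y; simp
    | succ k ih =>
      intro x y
      rw [pow_succ', mul_apply_eq_comp, mul_apply_eq_comp, hΦT, ih]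
  have hΦc : Continuous Φ := by
    refine (continuous_snd.inner continuous_fst).sub (continuous_finsetSum _ fun i _ => ?_)
    exact continuous_G_num (L i) (L i) _ (hL1 i) (hL1 i) hs
  have hΦ0 : ∀ x y, Φ (x, y) = 0 := by
    intro x y
    have h1 : Tendsto (fun k : ℕ => ((T ^ k) x, (T ^ k) y)) atTop (𝓝 ((0 : E →L[ℂ] E) x, (0 : E →L[ℂ] E) y)) := by
      have hx : ∀ x : E, Tendsto (fun k : ℕ => (T ^ k) x) atTop (𝓝 ((0 : E →L[ℂ] E) x)) := fun x =>
        ((ContinuousLinearMap.apply ℂ E x).continuous.tendsto _).comp hTk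
      exact (hx x).prodMk_nhds (hx y)
    have h2 := (hΦc.tendsto _).comp h1
    have h3 : (Φ ∘ fun k : ℕ => ((T ^ k) x, (T ^ k) y)) = fun _ => Φ (x, y) := by
      funext k; exact hΦk k x y
    rw [h3] at h2
    have h4 : Φ ((0 : E →L[ℂ] E) x, (0 : E →L[ℂ] E) y) = 0 := by
      simp [Φ, G_zero_left]
    rw [h4] at h2
    exact tendsto_nhds_unique tendsto_const_nhds h2
  have hin : ∀ x y, inner ℂ y x = ∑ i, G s (L i x) (L i y) := fun x y => sub_eq_zero.1 (hΦ0 x y)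
  have hnorm : ∀ x, ‖x‖ ^ 2 = ∑ i, (G s (L i x) (L i x)).re := by
    intro x
    have h1 := hin x x
    rw [inner_self_eq_norm_sq_to_K] at h1
    have h2 := congrArg Complex.re h1
    rw [Complex.re_sum] at h2
    rw [← h2]
    norm_cast
  have hmain : ∀ x y, ‖inner ℂ y (aeval T g x)‖ ≤ S / 2 * (‖x‖ ^ 2 + ‖y‖ ^ 2) := by
    intro x y
    rw [hin]
    have h1 : ∀ i, G s (L i (aeval T g x)) (L i y) = G s (L i x) (sharp g * L i y) := by
      intro i
      rw [← aeval_comm hs T (L i) (hL3 i), G_aeval_tau hs]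
    simp_rw [h1]
    calc ‖∑ i, G s (L i x) (sharp g * L i y)‖ ≤ ∑ i, ‖G s (L i x) (sharp g * L i y)‖ := norm_sum_le _ _
      _ ≤ ∑ i, S / 2 * ((G s (L i x) (L i x)).re + (G s (L i y) (L i y)).re) :=
          Finset.sum_le_sum fun i _ => hB _ (hL1 i x) _ (hL1 i y)
      _ = S / 2 * (‖x‖ ^ 2 + ‖y‖ ^ 2) := by
          rw [← Finset.mul_sum, Finset.sum_add_distrib, hnorm, hnorm]
  refine ContinuousLinearMap.opNorm_le_bound _ hS fun x => ?_
  by_cases hx : ‖x‖ = 0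
  · have : x = 0 := norm_eq_zero.1 hx
    simp [this]
  by_cases hA : ‖aeval T g x‖ = 0
  · rw [hA]; positivity
  have hx0 : 0 < ‖x‖ := lt_of_le_of_ne (norm_nonneg _) (Ne.symm hx)
  have hA0 : 0 < ‖aeval T g x‖ := lt_of_le_of_ne (norm_nonneg _) (Ne.symm hA)
  have h1 := hmain x (((‖x‖ / ‖aeval T g x‖ : ℝ) : ℂ) • aeval T g x)
  rw [inner_smul_left, inner_self_eq_norm_sq_to_K, norm_mul, norm_smul] at h1
  have e1 : ‖conj (((‖x‖ / ‖aeval T g x‖ : ℝ) : ℂ))‖ = ‖x‖ / ‖aeval T g x‖ := by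
    rw [Complex.norm_conj, norm_real, Real.norm_eq_abs, abs_of_pos (by positivity)]
  have e2 : ‖(((‖x‖ / ‖aeval T g x‖ : ℝ) : ℂ))‖ = ‖x‖ / ‖aeval T g x‖ := by
    rw [norm_real, Real.norm_eq_abs, abs_of_pos (by positivity)]
  have e3 : ‖((‖aeval T g x‖ : ℂ)) ^ 2‖ = ‖aeval T g x‖ ^ 2 := by
    rw [norm_pow, norm_real, norm_norm]
  rw [e1, e2] at h1
  erw [e3] at h1
  have e4 : ‖x‖ / ‖aeval T g x‖ * ‖aeval T g x‖ ^ 2 = ‖x‖ * ‖aeval T g x‖ := by
    field_simp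
  have e5 : ‖x‖ / ‖aeval T g x‖ * ‖aeval T g x‖ = ‖x‖ := by field_simp
  rw [e4, e5] at h1
  have h2 : ‖x‖ * ‖aeval T g x‖ ≤ ‖x‖ * (S * ‖x‖) := by nlinarith
  exact le_of_mul_le_mul_left h2 hx0

end

end Pool.Agent.H8.Ptak
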