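import Pool.Agent.H8.Ptak.Steps

set_option autoImplicit false

open Set Complex Polynomial MeasureTheory Filter Topology
open scoped ComplexConjugate

namespace Pool.Agent.H8.Ptak

/-- uniform power bound -/
theorem pow_bound {E : Type} [NormedAddCommGroup E] [InnerProductSpace ℂ E] (r ρ : ℝ) (hr0 : 0 ≤ r) (hr1 : r < 1)
    (hρ : r < ρ) (n : ℕ) :
    ∃ K : ℝ, 1 ≤ K ∧ ∀ s : Multiset ℂ, Multiset.card s = n → (∀ a ∈ s, ‖a‖ ≤ r) →
      ∀ T V : E →L[ℂ] E, ‖T‖ ≤ 1 → aeval T (pp s) * V = 0 → ∀ k : ℕ, ‖T ^ k * V‖ ≤ K * ρ ^ k * ‖V‖ := by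
  have hρ0 : 0 < ρ := lt_of_le_of_lt hr0 hρ
  induction n with
  | zero =>
    refine ⟨1, le_rfl, fun s hs _ T V _ hV k => ?_⟩
    rw [Multiset.card_eq_zero] at hs
    subst hs
    have : V = 0 := by simpa [pp] using hV
    subst this
    simp
  | succ n ih =>
    obtain ⟨K, hK1, hK⟩ := ih
    refine ⟨max 1 (2 * K / (ρ - r)), le_max_left _ _, fun s hs hsr T V hT hV => ?_⟩
    set K' := max 1 (2 * K / (ρ - r)) with hK'
    have hK'1 : 1 ≤ K' := le_max_left _ _
    have hK'2 : 2 * K ≤ K' * (ρ - r) := by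
      rw [← div_le_iff₀ (by linarith)]
      exact le_max_right _ _
    obtain ⟨a, ha⟩ : ∃ a, a ∈ s := Multiset.card_pos_iff_exists_mem.1 (by omega)
    obtain ⟨t, rfl⟩ := Multiset.exists_cons_of_mem ha
    rw [Multiset.card_cons] at hs
    have har : ‖a‖ ≤ r := hsr a ha
    let W : E →L[ℂ] E := T * V - a • V
    have hW : aeval T (pp t) * W = 0 := by
      rw [pp_cons, mul_comm, map_mul, mul_assoc] at hV
      have e1 : aeval T (X - C a) * V = W := by
        rw [map_sub, aeval_X, aeval_C, sub_mul]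
        congr 1
      rw [e1] at hV
      exact hV
    have hWn : ‖W‖ ≤ 2 * ‖V‖ := by
      have h1 : ‖T * V‖ ≤ 1 * ‖V‖ := (norm_mul_le _ _).trans (mul_le_mul_of_nonneg_right hT (norm_nonneg _))
      have h2 : ‖a • V‖ ≤ 1 * ‖V‖ := by
        rw [norm_smul]
        exact mul_le_mul_of_nonneg_right (by linarith) (norm_nonneg _)
      have h3 := norm_sub_le (T * V) (a • V)
      simp only [W]
      linarith
    have hkW := hK t (by omega) (fun b hb => hsr b (Multiset.mem_cons_of_mem hb)) T W hT hW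
    intro k
    induction k with
    | zero =>
      simp only [pow_zero, one_mul, mul_one]
      have := norm_nonneg V
      nlinarith
    | succ k ihk =>
      have e1 : T ^ (k + 1) * V = T ^ k * W + a • (T ^ k * V) := by
        simp only [W]
        rw [pow_succ, mul_sub, mul_assoc, mul_smul_comm]
        abel
      rw [e1]
      have h1 := hkW k
      have hρk : 0 < ρ ^ k := pow_pos hρ0 k
      have hV0 := norm_nonneg V
      have h2 : ‖a • (T ^ k * V)‖ ≤ r * (K' * ρ ^ k * ‖V‖) := by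
        rw [norm_smul]
        exact mul_le_mul har ihk (norm_nonneg _) hr0
      have h3 : K * ρ ^ k * ‖W‖ ≤ K * ρ ^ k * (2 * ‖V‖) := by
        have : 0 ≤ K * ρ ^ k := by positivity
        gcongr
      calc ‖T ^ k * W + a • (T ^ k * V)‖ ≤ ‖T ^ k * W‖ + ‖a • (T ^ k * V)‖ := norm_add_le _ _
        _ ≤ K * ρ ^ k * (2 * ‖V‖) + r * (K' * ρ ^ k * ‖V‖) := by linarith
        _ = (2 * K + r * K') * (ρ ^ k * ‖V‖) := by ring
        _ ≤ (ρ * K') * (ρ ^ k * ‖V‖) := by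
            have : 0 ≤ ρ ^ k * ‖V‖ := by positivity
            gcongr
            linarith
        _ = K' * ρ ^ (k + 1) * ‖V‖ := by ring

/-- the Hilbert space -/
abbrev H (n : ℕ) : Type := EuclideanSpace ℂ (Fin n)

/-- Taylor coefficients at `0` -/
noncomputable def coef (f : ℂ → ℂ) (k : ℕ) : ℂ := iteratedDeriv k f 0 / (k.factorial : ℂ)

/-- `f(T)` as a power series -/
noncomputable def fT {n : ℕ} (f : ℂ → ℂ) (T : H n →L[ℂ] H n) : H n →L[ℂ] H n := ∑' k : ℕ, coef f k • T ^ k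

/-- all relevant operators -/
def TT (n : ℕ) (r : ℝ) : Set (H n →L[ℂ] H n) :=
  {T | ‖T‖ ≤ 1 ∧ ∃ s : Multiset ℂ, Multiset.card s = n ∧ (∀ a ∈ s, ‖a‖ ≤ r) ∧ aeval T (pp s) = 0}

theorem coef_bound (f : ℂ → ℂ) (hf : DifferentiableOn ℂ f (Metric.ball 0 1)) (R : ℝ) (hR0 : 0 < R) (hR : R < 1) :
    ∃ M : ℝ, 0 ≤ M ∧ ∀ k : ℕ, ‖coef f k‖ ≤ M / R ^ k := by
  have hc : ContinuousOn f (Metric.sphere 0 R) :=
    hf.continuousOn.mono (fun z hz => by
      rw [mem_sphere_zero_iff_norm] at hz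
      simp [hz, hR])
  obtain ⟨M, hM⟩ := (isCompact_sphere (0 : ℂ) R).exists_bound_of_continuousOn hc
  refine ⟨max M 0, le_max_right _ _, fun k => ?_⟩
  have hd : DiffContOnCl ℂ f (Metric.ball 0 R) := by
    apply DifferentiableOn.diffContOnCl
    refine hf.mono ?_
    refine Metric.closure_ball_subset_closedBall.trans (Metric.closedBall_subset_ball hR)
  have h := Complex.norm_iteratedDeriv_le_of_forall_mem_sphere_norm_le k hR0 hd
    (C := max M 0) (fun z hz => (hM z hz).trans (le_max_left _ _))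
  unfold coef
  rw [norm_div, Complex.norm_natCast, div_le_iff₀ (by positivity)]
  refine h.trans (le_of_eq ?_)
  ring

theorem term_bound (n : ℕ) (r : ℝ) (hr0 : 0 < r) (hr : r < 1) (f : ℂ → ℂ)
    (hf : DifferentiableOn ℂ f (Metric.ball 0 1)) :
    ∃ u : ℕ → ℝ, Summable u ∧ (∀ T ∈ TT n r, ∀ k, ‖coef f k • T ^ k‖ ≤ u k) ∧
      ∀ T ∈ TT n r, Tendsto (fun k : ℕ => T ^ k) atTop (𝓝 0) := by
  obtain ⟨ρ, R, h1, h2, h3⟩ : ∃ ρ R : ℝ, r < ρ ∧ ρ < R ∧ R < 1 :=
    ⟨(2 * r + 1) / 3, (r + 2) / 3, by linarith, by linarith, by linarith⟩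
  have hρ0 : 0 < ρ := by linarith
  have hR0 : 0 < R := by linarith
  obtain ⟨K, hK1, hK⟩ := pow_bound (E := H n) r ρ hr0.le hr h1 n
  obtain ⟨M, hM0, hM⟩ := coef_bound f hf R hR0 h3
  have hpow : ∀ T ∈ TT n r, ∀ k : ℕ, ‖T ^ k‖ ≤ K * ρ ^ k := by
    rintro T ⟨hT1, s, hs, hsr, hT⟩ k
    have h4 := hK s hs hsr T 1 hT1 (by rw [hT, zero_mul]) k
    rw [mul_one] at h4
    have h5 : ‖(1 : H n →L[ℂ] H n)‖ ≤ 1 := ContinuousLinearMap.norm_id_le
    refine h4.trans ?_
    have : 0 ≤ K * ρ ^ k := by positivity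
    nlinarith
  refine ⟨fun k => M * K * (ρ / R) ^ k, ?_, ?_, ?_⟩
  · refine (summable_geometric_of_lt_one (by positivity) ?_).mul_left _
    rw [div_lt_one hR0]; exact h2
  · intro T hT k
    rw [norm_smul]
    calc ‖coef f k‖ * ‖T ^ k‖ ≤ (M / R ^ k) * (K * ρ ^ k) := by
          have := hM k
          have := hpow T hT k
          gcongr
      _ = M * K * (ρ / R) ^ k := by rw [div_pow]; ring
  · intro T hT
    rw [tendsto_zero_iff_norm_tendsto_zero]
    refine squeeze_zero (fun k => norm_nonneg _) (hpow T hT) ?_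
    have := (tendsto_pow_atTop_nhds_zero_of_lt_one hρ0.le (by linarith : ρ < 1)).const_mul K
    simpa using this

/-- Taylor polynomial -/
noncomputable def tay (f : ℂ → ℂ) (m : ℕ) : ℂ[X] := ∑ k ∈ Finset.range m, C (coef f k) * X ^ k

theorem aeval_tay {n : ℕ} (f : ℂ → ℂ) (m : ℕ) (T : H n →L[ℂ] H n) :
    aeval T (tay f m) = ∑ k ∈ Finset.range m, coef f k • T ^ k := by
  unfold tay
  rw [map_sum]
  refine Finset.sum_congr rfl fun k _ => ?_
  rw [map_mul, aeval_C, map_pow, aeval_X, Algebra.algebraMap_eq_smul_one, smul_mul_assoc, one_mul]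

theorem main_ineq (n : ℕ) (r : ℝ) (hr0 : 0 < r) (hr : r < 1) (f : ℂ → ℂ)
    (hf : DifferentiableOn ℂ f (Metric.ball 0 1)) (𝒮 : Set (Multiset ℂ))
    (h𝒮 : ∀ s ∈ 𝒮, Multiset.card s = n ∧ ∀ a ∈ s, ‖a‖ ≤ r)
    (htrans : ∀ (g : ℂ[X]) (S : ℝ), (∀ s ∈ 𝒮, Bound g n s S) →
      ∀ s : Multiset ℂ, (∀ a ∈ s, ‖a‖ ≤ r) → Multiset.card s = n → Bound g n s S)
    (S : ℝ) (hS0 : 0 ≤ S)
    (hS : ∀ s ∈ 𝒮, ∀ T : H n →L[ℂ] H n, ‖T‖ ≤ 1 → aeval T (pp s) = 0 → ‖fT f T‖ ≤ S) :
    ∀ T ∈ TT n r, ‖fT f T‖ ≤ S := by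
  obtain ⟨u, hu, hub, hTk⟩ := term_bound n r hr0 hr f hf
  have happrox : ∀ m, ∀ T ∈ TT n r, ‖fT f T - aeval T (tay f m)‖ ≤ ∑' k, u (k + m) := by
    intro m T hT
    have hsum : Summable fun k => coef f k • T ^ k :=
      Summable.of_norm_bounded hu (hub T hT)
    rw [aeval_tay]
    unfold fT
    rw [← hsum.sum_add_tsum_nat_add m, add_sub_cancel_left]
    exact tsum_of_norm_bounded ((summable_nat_add_iff m).2 hu).hasSum fun k => hub T hT (k + m)
  intro T hT
  have key : ∀ m, ‖fT f T‖ ≤ S + 2 * ∑' k, u (k + m) := by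
    intro m
    set ε := ∑' k, u (k + m) with hε
    have hε0 : 0 ≤ ε := (norm_nonneg _).trans (happrox m T hT)
    obtain ⟨hT1, s, hs, hsr, hTs⟩ := id hT
    have h1 : ∀ b ∈ 𝒮, Bound (tay f m) n b (S + ε) := by
      intro b hb
      obtain ⟨hbn, hbr⟩ := h𝒮 b hb
      refine bound_of_forall b (fun a ha => (hbr a ha).trans_lt hr) n hbn _ _ (by linarith) fun A hA1 hA => ?_
      have hAT : A ∈ TT n r := ⟨hA1, b, hbn, hbr, hA⟩
      have h2 := happrox m A hAT
      have h3 := hS b hb A hA1 hA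
      have h4 : aeval A (tay f m) = fT f A - (fT f A - aeval A (tay f m)) := by abel
      rw [h4]
      refine (norm_sub_le _ _).trans ?_
      linarith
    have h2 := htrans _ _ h1 s hsr hs
    have h3 := norm_le_of_bound T hT1 s (fun a ha => (hsr a ha).trans_lt hr) hTs (hTk T hT) (tay f m) (S + ε)
      (by linarith) (by rw [hs]; exact h2)
    have h4 := happrox m T hT
    have h5 : fT f T = (fT f T - aeval T (tay f m)) + aeval T (tay f m) := by abel
    rw [h5]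
    refine (norm_add_le _ _).trans ?_
    linarith
  have hlim : Tendsto (fun m => S + 2 * ∑' k, u (k + m)) atTop (𝓝 (S + 2 * 0)) :=
    ((tendsto_sum_nat_add u).const_mul 2).const_add S
  have := ge_of_tendsto' hlim key
  simpa using this

theorem fT_cont (n : ℕ) (r : ℝ) (hr0 : 0 < r) (hr : r < 1) (f : ℂ → ℂ)
    (hf : DifferentiableOn ℂ f (Metric.ball 0 1)) : ContinuousOn (fun T : H n →L[ℂ] H n => fT f T) (TT n r) := by
  obtain ⟨u, hu, hub, hTk⟩ := term_bound n r hr0 hr f hf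
  unfold fT
  refine continuousOn_tsum (fun k => ?_) hu fun k T hT => hub T hT k
  have hp : Continuous fun T : H n →L[ℂ] H n => T ^ k := continuous_pow k
  have : Continuous fun T : H n →L[ℂ] H n => coef f k • T ^ k := hp.fun_const_smul _
  exact this.continuousOn

/-- polynomial with the roots `b j` -/
noncomputable def pb {n : ℕ} (b : Fin n → ℂ) : ℂ[X] := ∏ j, (X - C (b j))

theorem pb_eq {n : ℕ} (b : Fin n → ℂ) : pb b = pp (Finset.univ.val.map b) := by
  unfold pb pp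
  rw [Multiset.map_map]; rfl

theorem continuous_coeff {n : ℕ} (F : Finset (Fin n)) (k : ℕ) :
    Continuous fun b : Fin n → ℂ => (∏ j ∈ F, (X - C (b j))).coeff k := by
  classical
  induction F using Finset.induction_on generalizing k with
  | empty => simp only [Finset.prod_empty]; exact continuous_const
  | insert a F ha ih =>
    simp_rw [Finset.prod_insert ha, coeff_mul]
    refine continuous_finsetSum _ fun x _ => ?_
    refine Continuous.mul ?_ (ih _)
    simp only [coeff_sub, coeff_C]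
    by_cases h : x.1 = 0
    · simp only [h, if_true]; fun_prop
    · simp only [h, if_false]; fun_prop

theorem continuous_aeval_pb (n : ℕ) : Continuous fun z : (Fin n → ℂ) × (H n →L[ℂ] H n) => aeval z.2 (pb z.1) := by
  have e1 : ∀ z : (Fin n → ℂ) × (H n →L[ℂ] H n), aeval z.2 (pb z.1) =
      ∑ k ∈ Finset.range (n + 1), (pb z.1).coeff k • z.2 ^ k := by
    intro z
    apply aeval_eq_sum_range'
    unfold pb
    rw [natDegree_finsetProd_X_sub_C_eq_card]
    simp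
  simp_rw [e1]
  refine continuous_finsetSum _ fun k _ => ?_
  exact ((continuous_coeff Finset.univ k).comp continuous_fst).smul (continuous_snd.pow k)

theorem attain (n : ℕ) (hn : 1 ≤ n) (r : ℝ) (hr0 : 0 < r) (hr : r < 1) (f : ℂ → ℂ)
    (hf : DifferentiableOn ℂ f (Metric.ball 0 1)) (𝒞 : Set (Fin n → ℂ)) (h𝒞 : IsCompact 𝒞) (hne : 𝒞.Nonempty)
    (hsub : ∀ b ∈ 𝒞, ∀ j, ‖b j‖ ≤ r) :
    ∃ b ∈ 𝒞, ∃ T : H n →L[ℂ] H n, ‖T‖ ≤ 1 ∧ aeval T (pb b) = 0 ∧
      ∀ b' ∈ 𝒞, ∀ T' : H n →L[ℂ] H n, ‖T'‖ ≤ 1 → aeval T' (pb b') = 0 → ‖fT f T'‖ ≤ ‖fT f T‖ := by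
  let K : Set ((Fin n → ℂ) × (H n →L[ℂ] H n)) := {z | z.1 ∈ 𝒞 ∧ ‖z.2‖ ≤ 1 ∧ aeval z.2 (pb z.1) = 0}
  have hK : IsCompact K := by
    have h1 : IsCompact (𝒞 ×ˢ Metric.closedBall (0 : H n →L[ℂ] H n) 1) :=
      h𝒞.prod (isCompact_closedBall _ _)
    have h2 : IsClosed {z : (Fin n → ℂ) × (H n →L[ℂ] H n) | aeval z.2 (pb z.1) = 0} :=
      isClosed_eq (continuous_aeval_pb n) continuous_const
    have h3 := h1.inter_right h2
    convert h3 using 1
    ext z
    simp only [K, mem_ofPred_eq, mem_inter_iff, mem_prod, mem_closedBall_zero_iff, and_assoc]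
  have hKsub : ∀ z ∈ K, z.2 ∈ TT n r := by
    rintro z ⟨h1, h2, h3⟩
    refine ⟨h2, Finset.univ.val.map z.1, by simp, ?_, by rw [← pb_eq]; exact h3⟩
    intro a ha
    obtain ⟨j, _, rfl⟩ := Multiset.mem_map.1 ha
    exact hsub z.1 h1 j
  have hKne : K.Nonempty := by
    obtain ⟨b, hb⟩ := hne
    let j : Fin n := ⟨0, hn⟩
    refine ⟨(b, algebraMap ℂ (H n →L[ℂ] H n) (b j)), hb, ?_, ?_⟩
    · have h5 : ‖(1 : H n →L[ℂ] H n)‖ ≤ 1 := ContinuousLinearMap.norm_id_le
      show ‖algebraMap ℂ (H n →L[ℂ] H n) (b j)‖ ≤ 1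
      rw [Algebra.algebraMap_eq_smul_one, norm_smul]
      have := hsub b hb j
      have := norm_nonneg (b j)
      nlinarith [norm_nonneg (1 : H n →L[ℂ] H n)]
    · show aeval (algebraMap ℂ (H n →L[ℂ] H n) (b j)) (pb b) = 0
      rw [aeval_algebraMap_apply, coe_aeval_eq_eval]
      have : (pb b).eval (b j) = 0 := by
        unfold pb
        rw [eval_prod]
        exact Finset.prod_eq_zero (Finset.mem_univ j) (by simp)
      rw [this, map_zero]
  have hcont : ContinuousOn (fun z : (Fin n → ℂ) × (H n →L[ℂ] H n) => ‖fT f z.2‖) K :=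
    ((fT_cont n r hr0 hr f hf).comp continuous_snd.continuousOn hKsub).norm
  obtain ⟨z, hz, hmax⟩ := hK.exists_isMaxOn hKne hcont
  refine ⟨z.1, hz.1, z.2, hz.2.1, hz.2.2, fun b' hb' T' hT'1 hT' => ?_⟩
  exact hmax (a := (b', T')) ⟨hb', hT'1, hT'⟩

end Pool.Agent.H8.Ptak
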