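import Mathlib

set_option autoImplicit false

open Set Complex Polynomial MeasureTheory
open scoped ComplexConjugate

namespace Pool.Agent.H8.Ptak

/-- `∏ (1 - a X)` -/
noncomputable def ps (s : Multiset ℂ) : ℂ[X] := (s.map fun a => 1 - C a * X).prod

/-- point of the circle -/
noncomputable def e (θ : ℝ) : ℂ := circleMap 0 1 θ

theorem norm_e (θ : ℝ) : ‖e θ‖ = 1 := by simp [e]

theorem continuous_e : Continuous e := continuous_circleMap 0 1

/-- weight -/
noncomputable def w (s : Multiset ℂ) (θ : ℝ) : ℝ := (‖(ps s).eval (e θ)‖ ^ 2)⁻¹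

/-- Gram form -/
noncomputable def G (s : Multiset ℂ) (q t : ℂ[X]) : ℂ :=
  (2 * Real.pi)⁻¹ * ∫ θ in (0 : ℝ)..2 * Real.pi, q.eval (e θ) * conj (t.eval (e θ)) * (w s θ : ℂ)

theorem ps_cons (a : ℂ) (s : Multiset ℂ) : ps (a ::ₘ s) = (1 - C a * X) * ps s := by
  simp [ps]

theorem ps_zero : ps 0 = 1 := by simp [ps]

theorem ps_coeff_zero (s : Multiset ℂ) : (ps s).coeff 0 = 1 := by
  induction s using Multiset.induction_on with
  | empty => simp [ps_zero]
  | cons a s ih => rw [ps_cons, mul_coeff_zero, ih]; simp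

theorem ps_eval_ne (s : Multiset ℂ) (hs : ∀ a ∈ s, ‖a‖ < 1) (z : ℂ) (hz : ‖z‖ ≤ 1) :
    (ps s).eval z ≠ 0 := by
  induction s using Multiset.induction_on with
  | empty => simp [ps_zero]
  | cons a s ih =>
    rw [ps_cons, eval_mul]
    refine mul_ne_zero ?_ (ih fun b hb => hs b (Multiset.mem_cons_of_mem hb))
    simp only [eval_sub, eval_one, eval_mul, eval_C, eval_X]
    intro h
    have h1 : a * z = 1 := (sub_eq_zero.1 h).symm
    have h2 : ‖a‖ * ‖z‖ = 1 := by rw [← norm_mul, h1, norm_one]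
    have h3 := hs a (Multiset.mem_cons_self a s)
    nlinarith [norm_nonneg a, norm_nonneg z]

theorem w_pos (s : Multiset ℂ) (hs : ∀ a ∈ s, ‖a‖ < 1) (θ : ℝ) : 0 < w s θ := by
  unfold w
  have := ps_eval_ne s hs (e θ) (norm_e θ).le
  positivity

theorem continuous_w (s : Multiset ℂ) (hs : ∀ a ∈ s, ‖a‖ < 1) : Continuous (w s) := by
  unfold w
  refine Continuous.inv₀ ?_ ?_
  · exact (((ps s).continuous.comp continuous_e).norm.pow 2)
  · intro θ
    have := ps_eval_ne s hs (e θ) (norm_e θ).le
    positivity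

theorem continuous_integrand (s : Multiset ℂ) (hs : ∀ a ∈ s, ‖a‖ < 1) (q t : ℂ[X]) :
    Continuous fun θ => q.eval (e θ) * conj (t.eval (e θ)) * (w s θ : ℂ) := by
  have h1 := (q.continuous.comp continuous_e)
  have h2 := (continuous_conj.comp (t.continuous.comp continuous_e))
  have h3 := (continuous_ofReal.comp (continuous_w s hs))
  exact (h1.mul h2).mul h3

section
variable {s : Multiset ℂ} (hs : ∀ a ∈ s, ‖a‖ < 1)
include hs

theorem G_add_left (q q' t : ℂ[X]) : G s (q + q') t = G s q t + G s q' t := by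
  unfold G
  rw [← mul_add, ← intervalIntegral.integral_add ((continuous_integrand s hs q t).intervalIntegrable _ _)
    ((continuous_integrand s hs q' t).intervalIntegrable _ _)]
  congr 1
  refine intervalIntegral.integral_congr fun θ _ => ?_
  simp only [eval_add]
  ring

omit hs in
theorem G_smul_left (c : ℂ) (q t : ℂ[X]) : G s (c • q) t = c * G s q t := by
  unfold G
  have h : ∫ θ in (0 : ℝ)..2 * Real.pi, (c • q).eval (e θ) * conj (t.eval (e θ)) * (w s θ : ℂ) =
      c * ∫ θ in (0 : ℝ)..2 * Real.pi, q.eval (e θ) * conj (t.eval (e θ)) * (w s θ : ℂ) := by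
    rw [← intervalIntegral.integral_const_mul]
    refine intervalIntegral.integral_congr fun θ _ => ?_
    simp only [eval_smul, smul_eq_mul]
    ring
  rw [h]
  ring

omit hs in
theorem G_conj (q t : ℂ[X]) : conj (G s q t) = G s t q := by
  unfold G
  rw [map_mul, intervalIntegral.integral_of_le (by positivity), intervalIntegral.integral_of_le (by positivity),
    ← integral_conj]
  congr 1
  · simp [Complex.conj_ofNat]
  · refine integral_congr_ae (Filter.Eventually.of_forall fun θ => ?_)
    simp only [map_mul, conj_conj, conj_ofReal]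
    ring

theorem G_add_right (q t t' : ℂ[X]) : G s q (t + t') = G s q t + G s q t' := by
  rw [← G_conj, G_add_left hs, map_add, G_conj, G_conj]

omit hs in
theorem G_smul_right (c : ℂ) (q t : ℂ[X]) : G s q (c • t) = conj c * G s q t := by
  rw [← G_conj, G_smul_left, map_mul, G_conj]

omit hs in
theorem G_neg_left (q t : ℂ[X]) : G s (-q) t = -G s q t := by
  have := G_smul_left (s := s) (-1) q t
  simpa using this

theorem G_sub_left (q q' t : ℂ[X]) : G s (q - q') t = G s q t - G s q' t := by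
  rw [sub_eq_add_neg, G_add_left hs, G_neg_left, sub_eq_add_neg]

omit hs in
theorem G_zero_left (t : ℂ[X]) : G s 0 t = 0 := by
  simpa using G_smul_left (s := s) 0 0 t

omit hs in
theorem G_zero_right (t : ℂ[X]) : G s t 0 = 0 := by
  rw [← G_conj, G_zero_left, map_zero]

theorem G_sub_right (q t t' : ℂ[X]) : G s q (t - t') = G s q t - G s q t' := by
  rw [← G_conj, G_sub_left hs, map_sub, G_conj, G_conj]

omit hs in
/-- (A1) -/
theorem G_X (q t : ℂ[X]) : G s (X * q) (X * t) = G s q t := by
  unfold G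
  congr 1
  refine intervalIntegral.integral_congr fun θ _ => ?_
  simp only [eval_mul, eval_X, map_mul]
  have : e θ * conj (e θ) = 1 := by
    rw [mul_conj, normSq_eq_norm_sq, norm_e]; simp
  linear_combination (eval (e θ) q * conj (eval (e θ) t) * (w s θ : ℂ)) * this

/-- (A2) -/
theorem G_ps (q : ℂ[X]) : G s q (ps s) = q.coeff 0 := by
  have hd : DiffContOnCl ℂ (fun z => q.eval z / (ps s).eval z) (Metric.ball 0 |1|) := by
    rw [abs_one]
    apply DifferentiableOn.diffContOnCl
    intro z hz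
    have hz1 : ‖z‖ ≤ 1 := by
      have := Metric.closure_ball_subset_closedBall hz
      simpa using this
    exact (q.differentiable.differentiableAt.div (ps s).differentiable.differentiableAt
      (ps_eval_ne s hs z hz1)).differentiableWithinAt
  have h := hd.circleAverage
  rw [Real.circleAverage_def] at h
  unfold G
  have h2 : ∀ θ, q.eval (e θ) * conj ((ps s).eval (e θ)) * (w s θ : ℂ) =
      q.eval (circleMap 0 1 θ) / (ps s).eval (circleMap 0 1 θ) := by
    intro θ
    have hne := ps_eval_ne s hs (e θ) (norm_e θ).le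
    have h3 : (w s θ : ℂ) = ((ps s).eval (e θ) * conj ((ps s).eval (e θ)))⁻¹ := by
      unfold w
      rw [mul_conj, normSq_eq_norm_sq]
      push_cast; rfl
    have hne' : conj ((ps s).eval (e θ)) ≠ 0 := by
      rw [Ne, map_eq_zero]; exact hne
    rw [h3]
    change _ = q.eval (e θ) / (ps s).eval (e θ)
    field_simp
  simp_rw [h2]
  have h4 : q.eval 0 / (ps s).eval 0 = q.coeff 0 := by
    rw [← coeff_zero_eq_eval_zero, ← coeff_zero_eq_eval_zero, ps_coeff_zero, div_one]
  rw [← h4, ← h]
  rw [Complex.real_smul]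

omit hs in
/-- (A3) positivity -/
theorem G_self (q : ℂ[X]) : G s q q = (((2 * Real.pi)⁻¹ * ∫ θ in (0 : ℝ)..2 * Real.pi,
    ‖q.eval (e θ)‖ ^ 2 * w s θ : ℝ) : ℂ) := by
  unfold G
  rw [ofReal_mul, ← intervalIntegral.integral_ofReal]
  push_cast
  congr 1
  refine intervalIntegral.integral_congr fun θ _ => ?_
  show _ = (‖q.eval (e θ)‖ : ℂ) ^ 2 * (w s θ : ℂ)
  rw [mul_conj, normSq_eq_norm_sq]
  push_cast; ring

theorem G_self_nonneg (q : ℂ[X]) : 0 ≤ (G s q q).re := by
  rw [G_self, ofReal_re]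
  refine mul_nonneg (by positivity) (intervalIntegral.integral_nonneg (by positivity) fun θ _ => ?_)
  exact mul_nonneg (by positivity) (w_pos s hs θ).le

theorem G_self_eq_zero (q : ℂ[X]) (h : G s q q = 0) : q = 0 := by
  rw [G_self] at h
  have h1 : (2 * Real.pi)⁻¹ * ∫ θ in (0 : ℝ)..2 * Real.pi, ‖q.eval (e θ)‖ ^ 2 * w s θ = 0 := by
    exact_mod_cast h
  have h2 : ∫ θ in (0 : ℝ)..2 * Real.pi, ‖q.eval (e θ)‖ ^ 2 * w s θ = 0 := by
    rcases mul_eq_zero.1 h1 with h | h
    · exfalso
      have : (2 * Real.pi)⁻¹ ≠ 0 := by positivity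
      exact this h
    · exact h
  have hc : Continuous fun θ => ‖q.eval (e θ)‖ ^ 2 * w s θ :=
    ((q.continuous.comp continuous_e).norm.pow 2).mul (continuous_w s hs)
  have h3 : ∀ θ ∈ Icc (0 : ℝ) (2 * Real.pi), ‖q.eval (e θ)‖ ^ 2 * w s θ = 0 := by
    by_contra hcon
    push Not at hcon
    obtain ⟨θ, hθ, hne⟩ := hcon
    have := intervalIntegral.integral_pos (a := 0) (b := 2 * Real.pi) (by positivity)
      hc.continuousOn (fun x _ => mul_nonneg (by positivity) (w_pos s hs x).le)
      ⟨θ, hθ, lt_of_le_of_ne (mul_nonneg (by positivity) (w_pos s hs θ).le) (Ne.symm hne)⟩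
    linarith
  -- infinitely many roots
  by_contra hq
  have hfin : (q.roots.toFinset : Set ℂ).Finite := Finset.finite_toSet _
  have hsub : e '' Ico (0 : ℝ) (2 * Real.pi) ⊆ (q.roots.toFinset : Set ℂ) := by
    rintro _ ⟨θ, hθ, rfl⟩
    have h4 := h3 θ ⟨hθ.1, hθ.2.le⟩
    rcases mul_eq_zero.1 h4 with h5 | h5
    · have : q.eval (e θ) = 0 := by simpa using h5
      simp only [Finset.mem_coe, Multiset.mem_toFinset]
      exact (mem_roots hq).2 this
    · exact absurd h5 (w_pos s hs θ).ne'
  have hinj : InjOn e (Ico (0 : ℝ) (2 * Real.pi)) :=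
    injOn_circleMap_of_abs_sub_le' one_ne_zero (by linarith)
  have hinf : (Ico (0 : ℝ) (2 * Real.pi)).Infinite := Ico_infinite (by positivity)
  exact (hinf.image hinj) (hfin.subset hsub)

end

end Pool.Agent.H8.Ptak
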