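import Pool.Agent.H8.Ptak.Model

set_option autoImplicit false

open Set Complex Polynomial MeasureTheory Filter Topology
open scoped ComplexConjugate

namespace Pool.Agent.H8.Ptak

theorem G_mix (s : Multiset ℂ) (σ : ℝ → Multiset ℂ) (g₀ : ℝ → ℝ) (L : ℝ) (hL : 0 ≤ L)
    (hw : ∀ θ, w s θ = ∫ t in (0 : ℝ)..L, g₀ t * w (σ t) θ)
    (hc : Continuous fun z : ℝ × ℝ => g₀ z.1 * w (σ z.1) z.2) (q p : ℂ[X]) :
    G s q p = ∫ t in (0 : ℝ)..L, (g₀ t : ℂ) * G (σ t) q p ∧
      Continuous fun t => (g₀ t : ℂ) * G (σ t) q p := by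
  let F : ℝ → ℝ → ℂ := fun t θ => q.eval (e θ) * conj (p.eval (e θ)) * ((g₀ t * w (σ t) θ : ℝ) : ℂ)
  have hF : Continuous (Function.uncurry F) := by
    have h1 : Continuous fun z : ℝ × ℝ => q.eval (e z.2) := q.continuous.comp (continuous_e.comp continuous_snd)
    have h2 : Continuous fun z : ℝ × ℝ => conj (p.eval (e z.2)) :=
      continuous_conj.comp (p.continuous.comp (continuous_e.comp continuous_snd))
    exact (h1.mul h2).mul (continuous_ofReal.comp hc)
  have e1 : ∀ t, (g₀ t : ℂ) * G (σ t) q p = (2 * Real.pi)⁻¹ * ∫ θ in (0 : ℝ)..2 * Real.pi, F t θ := by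
    intro t
    unfold G
    rw [mul_left_comm, ← intervalIntegral.integral_const_mul]
    congr 1
    refine intervalIntegral.integral_congr fun θ _ => ?_
    simp only [F]
    push_cast; ring
  constructor
  · simp_rw [e1]
    rw [intervalIntegral.integral_const_mul, intervalIntegral_intervalIntegral_swap]
    · unfold G
      congr 1
      refine intervalIntegral.integral_congr fun θ _ => ?_
      simp only [F]
      rw [intervalIntegral.integral_const_mul, intervalIntegral.integral_ofReal, ← hw]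
    · refine (hF.continuousOn.integrableOn_compact
        ((isCompact_Icc (a := (0 : ℝ)) (b := L)).prod (isCompact_Icc (a := (0 : ℝ)) (b := 2 * Real.pi)))).mono_set ?_
      rw [uIoc_of_le hL, uIoc_of_le (by positivity)]
      exact Set.prod_mono Ioc_subset_Icc_self Ioc_subset_Icc_self
  · simp_rw [e1]
    exact continuous_const.mul (intervalIntegral.continuous_parametric_intervalIntegral_of_continuous'
      hF _ _)

theorem bound_mix (g : ℂ[X]) (n : ℕ) (S : ℝ) (s : Multiset ℂ) (σ : ℝ → Multiset ℂ) (g₀ : ℝ → ℝ) (L : ℝ) (hL : 0 ≤ L)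
    (hw : ∀ θ, w s θ = ∫ t in (0 : ℝ)..L, g₀ t * w (σ t) θ)
    (hc : Continuous fun z : ℝ × ℝ => g₀ z.1 * w (σ z.1) z.2) (hg₀ : ∀ t, 0 ≤ g₀ t)
    (hB : ∀ t, Bound g n (σ t) S) : Bound g n s S := by
  intro q hq t ht
  obtain ⟨h1, -⟩ := G_mix s σ g₀ L hL hw hc q (sharp g * t)
  obtain ⟨h2, c2⟩ := G_mix s σ g₀ L hL hw hc q q
  obtain ⟨h3, c3⟩ := G_mix s σ g₀ L hL hw hc t t
  have c2' : Continuous fun x => ((g₀ x : ℂ) * G (σ x) q q).re := continuous_re.comp c2
  have c3' : Continuous fun x => ((g₀ x : ℂ) * G (σ x) t t).re := continuous_re.comp c3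
  have i2 : (G s q q).re = ∫ x in (0 : ℝ)..L, ((g₀ x : ℂ) * G (σ x) q q).re := by
    rw [h2]
    have := Complex.reCLM.intervalIntegral_comp_comm (c2.intervalIntegrable (μ := volume) 0 L)
    exact this.symm
  have i3 : (G s t t).re = ∫ x in (0 : ℝ)..L, ((g₀ x : ℂ) * G (σ x) t t).re := by
    rw [h3]
    have := Complex.reCLM.intervalIntegral_comp_comm (c3.intervalIntegrable (μ := volume) 0 L)
    exact this.symm
  rw [h1, i2, i3, ← intervalIntegral.integral_add (c2'.intervalIntegrable _ _) (c3'.intervalIntegrable _ _),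
    ← intervalIntegral.integral_const_mul]
  refine intervalIntegral.norm_integral_le_of_norm_le hL (Eventually.of_forall fun x _ => ?_)
    ((continuous_const.mul (c2'.add c3')).intervalIntegrable _ _)
  rw [norm_mul, norm_real, Real.norm_eq_abs, abs_of_nonneg (hg₀ x), re_ofReal_mul, re_ofReal_mul]
  have := mul_le_mul_of_nonneg_left (hB x q hq t ht) (hg₀ x)
  calc _ ≤ _ := this
    _ = _ := by ring

theorem ps_add (s t : Multiset ℂ) : ps (s + t) = ps s * ps t := by
  simp [ps]

theorem w_add (s t : Multiset ℂ) (θ : ℝ) : w (s + t) θ = w s θ * w t θ := by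
  unfold w
  rw [ps_add, eval_mul, norm_mul, mul_pow, mul_inv]

theorem w_cons (a : ℂ) (s : Multiset ℂ) (θ : ℝ) : w (a ::ₘ s) θ = (‖1 - a * e θ‖ ^ 2)⁻¹ * w s θ := by
  unfold w
  rw [ps_cons, eval_mul, norm_mul, mul_pow, mul_inv]
  simp

theorem w_replicate (m : ℕ) (a : ℂ) (θ : ℝ) : w (Multiset.replicate m a) θ = ((‖1 - a * e θ‖ ^ 2)⁻¹) ^ m := by
  induction m with
  | zero => simp [w, ps_zero]
  | succ m ih => rw [Multiset.replicate_succ, w_cons, ih, pow_succ]; ring

theorem one_sub_ne (a : ℂ) (ha : ‖a‖ < 1) (θ : ℝ) : 0 < ‖1 - a * e θ‖ ^ 2 := by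
  have : 1 - a * e θ ≠ 0 := by
    intro h
    have h1 : a * e θ = 1 := (sub_eq_zero.1 h).symm
    have h2 : ‖a‖ * ‖e θ‖ = 1 := by rw [← norm_mul, h1, norm_one]
    rw [norm_e] at h2
    linarith
  positivity

theorem norm_one_sub_sq (a : ℂ) (θ : ℝ) : ‖1 - a * e θ‖ ^ 2 = 1 + ‖a‖ ^ 2 - 2 * (a * e θ).re := by
  rw [← normSq_eq_norm_sq, normSq_sub, map_one, normSq_mul, normSq_eq_norm_sq (e θ), norm_e,
    normSq_eq_norm_sq]
  simp

/-- Feynman parametrisation -/
theorem feynman (A B : ℝ) (hA : 0 < A) (hB : 0 < B) (m : ℕ) :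
    ∫ t in (0 : ℝ)..1, (m + 1 : ℝ) * t ^ m / (t * A + (1 - t) * B) ^ (m + 2) = (A⁻¹) ^ (m + 1) * B⁻¹ := by
  have hpos : ∀ t ∈ Icc (0 : ℝ) 1, 0 < t * A + (1 - t) * B := by
    intro t ht
    rcases eq_or_lt_of_le ht.1 with h | h
    · rw [← h]; simpa using hB
    · have := mul_pos h hA
      have := mul_nonneg (sub_nonneg.2 ht.2) hB.le
      linarith
  have hder : ∀ t ∈ uIcc (0 : ℝ) 1, HasDerivAt (fun t => (t / (t * A + (1 - t) * B)) ^ (m + 1) / B)
      ((m + 1 : ℝ) * t ^ m / (t * A + (1 - t) * B) ^ (m + 2)) t := by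
    intro t ht
    rw [uIcc_of_le zero_le_one] at ht
    have hp := hpos t ht
    have h1 : HasDerivAt (fun t => t * A + (1 - t) * B) (A - B) t := by
      have := ((hasDerivAt_id t).mul_const A).add (((hasDerivAt_id t).const_sub 1).mul_const B)
      refine this.congr_deriv ?_
      ring
    have h2 := ((((hasDerivAt_id t).div h1 hp.ne').pow (m + 1)).div_const B)
    refine h2.congr_deriv ?_
    have hp' := hp.ne'
    have hB' := hB.ne'
    simp only [id, Pi.div_apply, Nat.add_sub_cancel]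
    push_cast
    rw [div_pow]
    have e1 : 1 * (t * A + (1 - t) * B) - t * (A - B) = B := by ring
    rw [e1]
    generalize t * A + (1 - t) * B = y at hp'
    field_simp
    ring
  rw [intervalIntegral.integral_eq_sub_of_hasDerivAt hder]
  · simp only [one_mul, sub_self, zero_mul, add_zero, sub_zero]
    have hA' := hA.ne'
    have hB' := hB.ne'
    rw [zero_div, zero_pow (by omega), zero_div, sub_zero, one_div, div_eq_mul_inv]
  · apply ContinuousOn.intervalIntegrable
    rw [uIcc_of_le zero_le_one]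
    refine ContinuousOn.div (by fun_prop) (by fun_prop) ?_
    intro t ht
    exact (pow_pos (hpos t ht) _).ne'

end Pool.Agent.H8.Ptak
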