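import Pool.Agent.H8.Ptak.Dil2

set_option autoImplicit false

open Set Complex Polynomial MeasureTheory Filter Topology
open scoped ComplexConjugate

namespace Pool.Agent.H8.Ptak

theorem exists_iso (s : Multiset ℂ) (hs : ∀ a ∈ s, ‖a‖ < 1) (n : ℕ) :
    ∃ U : degreeLT ℂ n ≃ₗ[ℂ] EuclideanSpace ℂ (Fin n), ∀ q t : degreeLT ℂ n,
      inner ℂ (U t) (U q) = G s (q : ℂ[X]) (t : ℂ[X]) := by
  let core : InnerProductSpace.Core ℂ (degreeLT ℂ n) :=
    { inner := fun t q => G s (q : ℂ[X]) (t : ℂ[X])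
      conj_inner_symm := fun x y => G_conj _ _
      re_inner_nonneg := fun x => G_self_nonneg hs _
      add_left := fun x y z => by
        show G s (z : ℂ[X]) ((x + y : degreeLT ℂ n) : ℂ[X]) = _
        rw [Submodule.coe_add, G_add_right hs]
      smul_left := fun x y r => by
        show G s (y : ℂ[X]) ((r • x : degreeLT ℂ n) : ℂ[X]) = _
        rw [Submodule.coe_smul, G_smul_right]
      definite := fun x hx => by
        have := G_self_eq_zero hs (x : ℂ[X]) hx
        exact Subtype.ext this }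
  letI : NormedAddCommGroup (degreeLT ℂ n) := core.toNormedAddCommGroup
  letI : InnerProductSpace ℂ (degreeLT ℂ n) := InnerProductSpace.ofCore core.toCore
  haveI : FiniteDimensional ℂ (degreeLT ℂ n) :=
    FiniteDimensional.of_injective (degreeLTEquiv ℂ n).toLinearMap (degreeLTEquiv ℂ n).injective
  have hfr : Module.finrank ℂ (degreeLT ℂ n) = n := by
    rw [(degreeLTEquiv ℂ n).finrank_eq, Module.finrank_fin_fun]
  let b := (stdOrthonormalBasis ℂ (degreeLT ℂ n)).reindex (finCongr hfr)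
  refine ⟨b.repr.toLinearEquiv, fun q t => ?_⟩
  exact b.repr.inner_map_map t q

/-- restriction of `tau s` to `degreeLT ℂ n` -/
noncomputable def tauR (s : Multiset ℂ) (n : ℕ) (hn : Multiset.card s ≤ n) :
    degreeLT ℂ n →ₗ[ℂ] degreeLT ℂ n :=
  (tau s).restrict (tau_mem s n hn)

theorem bound_of_forall (s : Multiset ℂ) (hs : ∀ a ∈ s, ‖a‖ < 1) (n : ℕ) (hn : Multiset.card s = n)
    (g : ℂ[X]) (S : ℝ) (hS : 0 ≤ S)
    (h : ∀ T : EuclideanSpace ℂ (Fin n) →L[ℂ] EuclideanSpace ℂ (Fin n), ‖T‖ ≤ 1 → aeval T (pp s) = 0 →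
      ‖aeval T g‖ ≤ S) : Bound g n s S := by
  obtain ⟨U, hU⟩ := exists_iso s hs n
  let T : EuclideanSpace ℂ (Fin n) →L[ℂ] EuclideanSpace ℂ (Fin n) :=
    LinearMap.toContinuousLinearMap (U.toLinearMap ∘ₗ (tauR s n hn.le) ∘ₗ U.symm.toLinearMap)
  have hT : ∀ q : degreeLT ℂ n, T (U q) = U (tauR s n hn.le q) := by
    intro q
    show U (tauR s n hn.le (U.symm (U q))) = _
    rw [U.symm_apply_apply]
  have hnorm : ∀ q : degreeLT ℂ n, ‖U q‖ ^ 2 = (G s (q : ℂ[X]) (q : ℂ[X])).re := by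
    intro q
    rw [← hU q q, inner_self_eq_norm_sq_to_K]
    norm_cast
  have hT1 : ‖T‖ ≤ 1 := by
    refine ContinuousLinearMap.opNorm_le_bound _ zero_le_one fun x => ?_
    obtain ⟨q, rfl⟩ := U.surjective x
    rw [hT, one_mul]
    refine le_of_sq_le_sq ?_ (norm_nonneg _)
    rw [hnorm, hnorm]
    show (G s (tau s (q : ℂ[X])) (tau s (q : ℂ[X]))).re ≤ _
    rw [G_tau_tau hs, mul_conj, sub_re, ofReal_re]
    have := normSq_nonneg ((q : ℂ[X]).coeff 0)
    linarith
  have haev : ∀ (p : ℂ[X]) (q : degreeLT ℂ n), ∃ q' : degreeLT ℂ n, (q' : ℂ[X]) = aeval (tau s) p (q : ℂ[X]) ∧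
      aeval T p (U q) = U q' := by
    intro p q
    refine ⟨aeval (tauR s n hn.le) p q, ?_, ?_⟩
    · induction p using Polynomial.induction_on' with
      | add p p' hp hp' =>
        rw [map_add, LinearMap.add_apply, Submodule.coe_add, hp, hp', map_add, LinearMap.add_apply]
      | monomial m c =>
        have h1 : ∀ (m : ℕ) (q : degreeLT ℂ n), (((tauR s n hn.le) ^ m) q : ℂ[X]) = (tau s ^ m) (q : ℂ[X]) := by
          intro m
          induction m with
          | zero => intro q; simp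
          | succ m ih =>
            intro q
            rw [pow_succ, Module.End.mul_apply, ih, pow_succ, Module.End.mul_apply]
            rfl
        rw [aeval_monomial, aeval_monomial, Module.End.mul_apply, Module.End.mul_apply, ← h1]
        rfl
    · induction p using Polynomial.induction_on' with
      | add p p' hp hp' =>
        rw [map_add, map_add, LinearMap.add_apply, map_add, ← hp, ← hp']
        rfl
      | monomial m c =>
        have h1 : ∀ (m : ℕ) (q : degreeLT ℂ n), (T ^ m) (U q) = U (((tauR s n hn.le) ^ m) q) := by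
          intro m
          induction m with
          | zero => intro q; simp
          | succ m ih =>
            intro q
            rw [pow_succ, mul_apply_eq_comp, hT, ih, pow_succ, Module.End.mul_apply]
        rw [aeval_monomial, aeval_monomial, mul_apply_eq_comp, Module.End.mul_apply, h1]
        have e1 : ∀ x : degreeLT ℂ n, (algebraMap ℂ (Module.End ℂ (degreeLT ℂ n)) c) x = c • x := fun x => rfl
        have e2 : ∀ x : EuclideanSpace ℂ (Fin n), (algebraMap ℂ (EuclideanSpace ℂ (Fin n) →L[ℂ] EuclideanSpace ℂ (Fin n)) c) x = c • x := fun x => rfl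
        rw [e1, e2, map_smul]
  have hTp : aeval T (pp s) = 0 := by
    ext1 x
    obtain ⟨q, rfl⟩ := U.surjective x
    obtain ⟨q', h1, h2⟩ := haev (pp s) q
    have hq := q.2
    have h3 : (q' : ℂ[X]) = 0 := by
      rw [h1]
      exact aeval_pp_tau s _ (by rw [hn]; exact hq)
    have h4 : q' = 0 := Subtype.ext h3
    rw [h2, h4, map_zero]; rfl
  have hg := h T hT1 hTp
  intro q hq t ht
  obtain ⟨q', h1, h2⟩ := haev g ⟨q, hq⟩
  have h3 : G s q (sharp g * t) = inner ℂ (U ⟨t, ht⟩) (aeval T g (U ⟨q, hq⟩)) := by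
    rw [h2, hU, h1, G_aeval_tau hs]
  rw [h3]
  refine (norm_inner_le_norm _ _).trans ?_
  have h4 : ‖aeval T g (U ⟨q, hq⟩)‖ ≤ S * ‖U ⟨q, hq⟩‖ :=
    ((aeval T g).le_opNorm _).trans (mul_le_mul_of_nonneg_right hg (norm_nonneg _))
  have h5 := hnorm ⟨q, hq⟩
  have h6 := hnorm ⟨t, ht⟩
  simp only at h5 h6
  rw [← h5, ← h6]
  have h7 := norm_nonneg (U ⟨t, ht⟩)
  calc ‖U ⟨t, ht⟩‖ * ‖aeval T g (U ⟨q, hq⟩)‖ ≤ ‖U ⟨t, ht⟩‖ * (S * ‖U ⟨q, hq⟩‖) := by gcongr
    _ ≤ S / 2 * (‖U ⟨q, hq⟩‖ ^ 2 + ‖U ⟨t, ht⟩‖ ^ 2) := by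
      have := mul_nonneg hS (sq_nonneg (‖U ⟨q, hq⟩‖ - ‖U ⟨t, ht⟩‖))
      nlinarith

end Pool.Agent.H8.Ptak
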