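import Pool.Agent.H8.Ptak.Gram

set_option autoImplicit false

open Set Complex Polynomial MeasureTheory
open scoped ComplexConjugate

namespace Pool.Agent.H8.Ptak

/-- backward shift on numerators -/
noncomputable def tau (s : Multiset ℂ) : ℂ[X] →ₗ[ℂ] ℂ[X] where
  toFun q := divX (q - C (q.coeff 0) * ps s)
  map_add' q q' := by
    rw [← divX_add]
    congr 1
    rw [coeff_add, C_add]; ring
  map_smul' c q := by
    rw [RingHom.id_apply]
    ext n
    simp only [coeff_divX, coeff_sub, coeff_smul, coeff_C_mul, smul_eq_mul]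
    ring

theorem X_mul_tau (s : Multiset ℂ) (q : ℂ[X]) : X * tau s q = q - C (q.coeff 0) * ps s := by
  have h := divX_mul_X_add (q - C (q.coeff 0) * ps s)
  have h0 : (q - C (q.coeff 0) * ps s).coeff 0 = 0 := by
    rw [coeff_sub, coeff_C_mul, ps_coeff_zero]; ring
  rw [h0, C_0, add_zero] at h
  rw [mul_comm]; exact h

theorem tau_eq (s : Multiset ℂ) (q q' : ℂ[X]) (h : X * q' = q - C (q.coeff 0) * ps s) : tau s q = q' := by
  have := X_mul_tau s q
  rw [← h] at this
  exact mul_left_cancel₀ X_ne_zero this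

section
variable {s : Multiset ℂ} (hs : ∀ a ∈ s, ‖a‖ < 1)
include hs

theorem G_tau_left (q t : ℂ[X]) : G s (tau s q) t = G s q (X * t) := by
  rw [← G_X, X_mul_tau, G_sub_left hs, ← smul_eq_C_mul, G_smul_left]
  have h1 : G s (ps s) (X * t) = 0 := by
    rw [← G_conj, G_ps hs, coeff_X_mul_zero, map_zero]
  rw [h1, mul_zero, sub_zero]

theorem G_tau_tau (q t : ℂ[X]) :
    G s (tau s q) (tau s t) = G s q t - q.coeff 0 * conj (t.coeff 0) := by
  rw [G_tau_left hs, X_mul_tau, G_sub_right hs, ← smul_eq_C_mul, G_smul_right, G_ps hs]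
  ring

/-- conjugate coefficients -/
noncomputable def sharp (g : ℂ[X]) : ℂ[X] := g.map (starRingEnd ℂ)

theorem G_aeval_tau (g q t : ℂ[X]) : G s (aeval (tau s) g q) t = G s q (sharp g * t) := by
  induction g using Polynomial.induction_on' generalizing t with
  | add p p' hp hp' =>
    rw [map_add, LinearMap.add_apply, G_add_left hs, hp, hp', ← G_add_right hs, ← add_mul]
    simp [sharp]
  | monomial n a =>
    have h : ∀ (n : ℕ) (t : ℂ[X]), G s ((tau s ^ n) q) t = G s q (X ^ n * t) := by
      intro n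
      induction n with
      | zero => intro t; simp
      | succ n ih =>
        intro t
        rw [pow_succ', Module.End.mul_apply, G_tau_left hs, ih, pow_succ, mul_assoc]
    rw [aeval_monomial, Module.End.mul_apply]
    have e1 : (algebraMap ℂ (Module.End ℂ ℂ[X]) a) ((tau s ^ n) q) = a • ((tau s ^ n) q) := rfl
    rw [e1, G_smul_left, h]
    have e2 : sharp (monomial n a) * t = (conj a) • (X ^ n * t) := by
      unfold sharp
      rw [map_monomial, ← C_mul_X_pow_eq_monomial, smul_eq_C_mul]
      ring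
    rw [e2, G_smul_right, conj_conj]

end

theorem ps_natDegree (s : Multiset ℂ) : (ps s).natDegree ≤ Multiset.card s := by
  induction s using Multiset.induction_on with
  | empty => simp [ps_zero]
  | cons a s ih =>
    rw [ps_cons, Multiset.card_cons]
    refine natDegree_mul_le.trans ?_
    have : (1 - C a * X : ℂ[X]).natDegree ≤ 1 := by
      refine (natDegree_sub_le _ _).trans ?_
      rw [natDegree_one]
      exact max_le (by norm_num) ((natDegree_C_mul_le a X).trans natDegree_X_le)
    omega

theorem tau_mem (s : Multiset ℂ) (n : ℕ) (hn : Multiset.card s ≤ n) (q : ℂ[X]) (hq : q ∈ degreeLT ℂ n) :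
    tau s q ∈ degreeLT ℂ n := by
  rw [mem_degreeLT, degree_lt_iff_coeff_zero] at *
  intro m hm
  have : (tau s q).coeff m = (q - C (q.coeff 0) * ps s).coeff (m + 1) := by
    show (divX _).coeff m = _
    rw [coeff_divX]
  rw [this, coeff_sub, coeff_C_mul, hq _ (by omega), coeff_eq_zero_of_natDegree_lt (p := ps s)
    (by have := ps_natDegree s; omega)]
  ring

theorem tau_mem' (s : Multiset ℂ) (n : ℕ) (hn : Multiset.card s ≤ n) (q : ℂ[X]) (hq : q ∈ degreeLT ℂ (n + 1)) :
    tau s q ∈ degreeLT ℂ n := by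
  rw [mem_degreeLT, degree_lt_iff_coeff_zero] at *
  intro m hm
  have : (tau s q).coeff m = (q - C (q.coeff 0) * ps s).coeff (m + 1) := by
    show (divX _).coeff m = _
    rw [coeff_divX]
  rw [this, coeff_sub, coeff_C_mul, hq _ (by omega), coeff_eq_zero_of_natDegree_lt (p := ps s)
    (by have := ps_natDegree s; omega)]
  ring

/-- `∏ (X - a)` -/
noncomputable def pp (s : Multiset ℂ) : ℂ[X] := (s.map fun a => X - C a).prod

theorem pp_cons (a : ℂ) (s : Multiset ℂ) : pp (a ::ₘ s) = (X - C a) * pp s := by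
  simp [pp]

theorem tau_cons_sub (a : ℂ) (s : Multiset ℂ) (q : ℂ[X]) :
    tau (a ::ₘ s) q - a • q = (1 - C a * X) * tau s q := by
  have h1 := X_mul_tau (a ::ₘ s) q
  have h2 := X_mul_tau s q
  rw [ps_cons] at h1
  apply mul_left_cancel₀ (X_ne_zero (R := ℂ))
  rw [smul_eq_C_mul]
  linear_combination h1 - (1 - C a * X) * h2

theorem tau_cons_mul (a : ℂ) (s : Multiset ℂ) (q : ℂ[X]) :
    tau (a ::ₘ s) ((1 - C a * X) * q) = (1 - C a * X) * tau s q := by
  apply tau_eq
  have h2 := X_mul_tau s q
  have h0 : ((1 - C a * X) * q).coeff 0 = q.coeff 0 := by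
    rw [mul_coeff_zero]; simp
  rw [h0, ps_cons]
  linear_combination (1 - C a * X) * h2

theorem aeval_tau_cons_mul (a : ℂ) (s : Multiset ℂ) (g q : ℂ[X]) :
    aeval (tau (a ::ₘ s)) g ((1 - C a * X) * q) = (1 - C a * X) * aeval (tau s) g q := by
  have h : ∀ (n : ℕ) (q : ℂ[X]), (tau (a ::ₘ s) ^ n) ((1 - C a * X) * q) = (1 - C a * X) * (tau s ^ n) q := by
    intro n
    induction n with
    | zero => intro q; simp
    | succ n ih =>
      intro q
      rw [pow_succ, Module.End.mul_apply, tau_cons_mul, ih, pow_succ, Module.End.mul_apply]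
  induction g using Polynomial.induction_on' with
  | add p p' hp hp' => rw [map_add, LinearMap.add_apply, hp, hp', map_add, LinearMap.add_apply, mul_add]
  | monomial n c =>
    rw [aeval_monomial, aeval_monomial, Module.End.mul_apply, Module.End.mul_apply, h]
    have e1 : ∀ x : ℂ[X], (algebraMap ℂ (Module.End ℂ ℂ[X]) c) x = c • x := fun x => rfl
    rw [e1, e1, mul_smul_comm]

theorem aeval_pp_tau (s : Multiset ℂ) (q : ℂ[X]) (hq : q ∈ degreeLT ℂ (Multiset.card s)) :
    aeval (tau s) (pp s) q = 0 := by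
  induction s using Multiset.induction_on generalizing q with
  | empty =>
    rw [Multiset.card_zero, degreeLT_eq_span_X_pow] at hq
    simp at hq
    rw [hq, map_zero]
  | cons a s ih =>
    rw [pp_cons, mul_comm, map_mul, Module.End.mul_apply]
    have e1 : aeval (tau (a ::ₘ s)) (X - C a) q = (1 - C a * X) * tau s q := by
      rw [← tau_cons_sub, map_sub, aeval_X, aeval_C]
      rfl
    rw [e1, aeval_tau_cons_mul, ih, mul_zero]
    rw [Multiset.card_cons] at hq
    exact tau_mem' s _ le_rfl q hq

end Pool.Agent.H8.Ptak
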