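import Pool.Agent.H8.Ptak.Mix

set_option autoImplicit false

open Set Complex Polynomial MeasureTheory Filter Topology
open scoped ComplexConjugate

namespace Pool.Agent.H8.Ptak

/-- clamp to `[0,1]` -/
noncomputable def cl (t : ℝ) : ℝ := max 0 (min t 1)

theorem cl_nonneg (t : ℝ) : 0 ≤ cl t := le_max_left _ _
theorem cl_le_one (t : ℝ) : cl t ≤ 1 := max_le zero_le_one (min_le_right _ _)
theorem cl_eq (t : ℝ) (ht : t ∈ Icc (0 : ℝ) 1) : cl t = t := by
  unfold cl; rw [min_eq_left ht.2, max_eq_right ht.1]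
theorem continuous_cl : Continuous cl := by unfold cl; fun_prop

theorem q1_step (g : ℂ[X]) (n : ℕ) (S : ℝ) (r : ℝ) (hr : r < 1) (c b : ℂ) (hc : ‖c‖ ≤ r) (hb : ‖b‖ ≤ r)
    (m : ℕ) (s' : Multiset ℂ) (hs' : ∀ a ∈ s', ‖a‖ < 1)
    (h : ∀ d : ℂ, ‖d‖ ≤ r → Bound g n (Multiset.replicate (m + 2) d + s') S) :
    Bound g n (Multiset.replicate (m + 1) c + b ::ₘ s') S := by
  let α : ℝ → ℝ := fun t => 1 + cl t * ‖c‖ ^ 2 + (1 - cl t) * ‖b‖ ^ 2
  let β : ℝ → ℂ := fun t => (cl t : ℂ) * c + ((1 - cl t : ℝ) : ℂ) * b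
  let κ : ℝ → ℝ := fun t => (α t + Real.sqrt (α t ^ 2 - 4 * ‖β t‖ ^ 2)) / 2
  let d : ℝ → ℂ := fun t => β t / (κ t : ℂ)
  have hβ : ∀ t, ‖β t‖ ≤ cl t * ‖c‖ + (1 - cl t) * ‖b‖ := by
    intro t
    have h1 := cl_nonneg t
    have h2 := cl_le_one t
    refine (norm_add_le _ _).trans ?_
    rw [norm_mul, norm_mul, norm_real, norm_real, Real.norm_eq_abs, Real.norm_eq_abs,
      abs_of_nonneg h1, abs_of_nonneg (by linarith)]
  have hβr : ∀ t, ‖β t‖ ≤ r := by
    intro t
    have h1 := cl_nonneg t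
    have h2 := cl_le_one t
    have h3 := hβ t
    nlinarith
  have hβα : ∀ t, 1 + ‖β t‖ ^ 2 ≤ α t := by
    intro t
    have h1 := cl_nonneg t
    have h2 := cl_le_one t
    have h3 : ‖β t‖ ^ 2 ≤ (cl t * ‖c‖ + (1 - cl t) * ‖b‖) ^ 2 :=
      pow_le_pow_left₀ (norm_nonneg _) (hβ t) 2
    have h4 : 0 ≤ cl t * (1 - cl t) * (‖c‖ - ‖b‖) ^ 2 :=
      mul_nonneg (mul_nonneg h1 (by linarith)) (sq_nonneg _)
    simp only [α]
    nlinarith
  have hdisc : ∀ t, 0 ≤ α t ^ 2 - 4 * ‖β t‖ ^ 2 := by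
    intro t
    have h1 := hβα t
    have h2 := norm_nonneg (β t)
    have h3 : 2 * ‖β t‖ ≤ α t := by nlinarith [sq_nonneg (‖β t‖ - 1)]
    nlinarith
  have hκ1 : ∀ t, 1 ≤ κ t := by
    intro t
    have h1 := hβα t
    have h2 : (2 - α t) ≤ Real.sqrt (α t ^ 2 - 4 * ‖β t‖ ^ 2) := by
      apply Real.le_sqrt_of_sq_le
      nlinarith
    simp only [κ]
    linarith
  have hκ2 : ∀ t, κ t ^ 2 + ‖β t‖ ^ 2 = α t * κ t := by
    intro t
    have h1 := Real.sq_sqrt (hdisc t)
    simp only [κ]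
    nlinarith
  have hd : ∀ t, ‖d t‖ ≤ r := by
    intro t
    simp only [d]
    rw [norm_div, norm_real, Real.norm_eq_abs, abs_of_pos (by linarith [hκ1 t])]
    rw [div_le_iff₀ (by linarith [hκ1 t])]
    have h1 := hβr t
    have h2 := hκ1 t
    have h3 : 0 ≤ r := (norm_nonneg _).trans h1
    nlinarith
  have hkey : ∀ t θ, κ t * ‖1 - d t * e θ‖ ^ 2 = cl t * ‖1 - c * e θ‖ ^ 2 + (1 - cl t) * ‖1 - b * e θ‖ ^ 2 := by
    intro t θ
    rw [norm_one_sub_sq, norm_one_sub_sq, norm_one_sub_sq]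
    have h1 : κ t ≠ 0 := by linarith [hκ1 t]
    have h2 : ‖d t‖ ^ 2 = ‖β t‖ ^ 2 / κ t ^ 2 := by
      simp only [d]
      rw [norm_div, norm_real, Real.norm_eq_abs, div_pow, sq_abs]
    have h3 : (d t * e θ).re = (β t * e θ).re / κ t := by
      simp only [d]
      have : β t / (κ t : ℂ) * e θ = (β t * e θ) / (κ t : ℂ) := by ring
      rw [this, div_ofReal_re]
    have h4 : (β t * e θ).re = cl t * (c * e θ).re + (1 - cl t) * (b * e θ).re := by
      simp only [β]
      have : ((cl t : ℂ) * c + ((1 - cl t : ℝ) : ℂ) * b) * e θ = (cl t : ℂ) * (c * e θ) + ((1 - cl t : ℝ) : ℂ) * (b * e θ) := by ring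
      rw [this, add_re, re_ofReal_mul, re_ofReal_mul]
    rw [h2, h3, h4]
    have h5 := hκ2 t
    have h6 : κ t * (1 + ‖β t‖ ^ 2 / κ t ^ 2 - 2 * ((cl t * (c * e θ).re + (1 - cl t) * (b * e θ).re) / κ t)) =
        (κ t ^ 2 + ‖β t‖ ^ 2) / κ t - 2 * (cl t * (c * e θ).re + (1 - cl t) * (b * e θ).re) := by
      field_simp
    rw [h6, h5]
    simp only [α]
    field_simp
    ring
  let g₀ : ℝ → ℝ := fun t => (m + 1 : ℝ) * cl t ^ m * ((κ t)⁻¹) ^ (m + 2)
  let σ : ℝ → Multiset ℂ := fun t => Multiset.replicate (m + 2) (d t) + s'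
  have hform : ∀ t θ, g₀ t * w (σ t) θ = (m + 1 : ℝ) * cl t ^ m /
      (cl t * ‖1 - c * e θ‖ ^ 2 + (1 - cl t) * ‖1 - b * e θ‖ ^ 2) ^ (m + 2) * w s' θ := by
    intro t θ
    rw [← hkey]
    simp only [g₀, σ]
    rw [w_add, w_replicate, mul_pow, div_eq_mul_inv, mul_inv, inv_pow, inv_pow]
    ring
  have hden : ∀ t θ, 0 < cl t * ‖1 - c * e θ‖ ^ 2 + (1 - cl t) * ‖1 - b * e θ‖ ^ 2 := by
    intro t θ
    rw [← hkey]
    have h1 := one_sub_ne (d t) ((hd t).trans_lt hr) θ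
    have h2 := hκ1 t
    positivity
  refine bound_mix g n S _ σ g₀ 1 zero_le_one ?_ ?_ ?_ fun t => h (d t) (hd t)
  · intro θ
    have h1 : ∫ t in (0 : ℝ)..1, g₀ t * w (σ t) θ = ∫ t in (0 : ℝ)..1, ((m + 1 : ℝ) * t ^ m /
        (t * ‖1 - c * e θ‖ ^ 2 + (1 - t) * ‖1 - b * e θ‖ ^ 2) ^ (m + 2)) * w s' θ := by
      refine intervalIntegral.integral_congr fun t ht => ?_
      rw [uIcc_of_le zero_le_one] at ht
      rw [hform, cl_eq t ht]
    rw [h1, intervalIntegral.integral_mul_const, feynman _ _ (one_sub_ne c (hc.trans_lt hr) θ)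
      (one_sub_ne b (hb.trans_lt hr) θ), w_add, w_replicate, w_cons]
    ring
  · have e1 : (fun z : ℝ × ℝ => g₀ z.1 * w (σ z.1) z.2) = fun z : ℝ × ℝ => (m + 1 : ℝ) * cl z.1 ^ m /
      (cl z.1 * ‖1 - c * e z.2‖ ^ 2 + (1 - cl z.1) * ‖1 - b * e z.2‖ ^ 2) ^ (m + 2) * w s' z.2 := by
      funext z; exact hform z.1 z.2
    rw [e1]
    have c1 : Continuous fun z : ℝ × ℝ => cl z.1 := continuous_cl.comp continuous_fst
    have c2 : ∀ a : ℂ, Continuous fun z : ℝ × ℝ => ‖1 - a * e z.2‖ ^ 2 := fun a =>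
      ((continuous_const.sub (continuous_const.mul (continuous_e.comp continuous_snd))).norm.pow 2)
    have c3 : Continuous fun z : ℝ × ℝ => w s' z.2 := (continuous_w s' hs').comp continuous_snd
    refine Continuous.mul ?_ c3
    refine Continuous.div (continuous_const.mul (c1.pow m)) ?_ fun z => (pow_pos (hden z.1 z.2) _).ne'
    exact (((c1.mul (c2 c)).add ((continuous_const.sub c1).mul (c2 b))).pow _)
  · intro t
    have h1 := cl_nonneg t
    have h2 := hκ1 t
    positivity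

theorem re_kernel (b : ℂ) (θ : ℝ) : ((1 + b * e θ) / (1 - b * e θ)).re = (1 - ‖b‖ ^ 2) * (‖1 - b * e θ‖ ^ 2)⁻¹ := by
  have h := congrFun (poissonKernel_eq_re_herglotzRieszKernel (c := 0) (w := b * e θ)) 1
  simp only [Function.comp_apply, herglotzRieszKernel_def, poissonKernel_def, sub_zero] at h
  rw [← h, norm_mul, norm_e, norm_one]
  ring

theorem q2_step (g : ℂ[X]) (n : ℕ) (S : ℝ) (r : ℝ) (hr : r < 1) (a : ℂ) (ha : ‖a‖ < r)
    (s' : Multiset ℂ) (hs' : ∀ a ∈ s', ‖a‖ < 1)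
    (h : ∀ d : ℂ, ‖d‖ = r → Bound g n (d ::ₘ s') S) :
    Bound g n (a ::ₘ s') S := by
  have hr0 : 0 < r := (norm_nonneg _).trans_lt ha
  have hz : ∀ t, ‖circleMap 0 r t‖ = r := fun t => by simp [hr0.le]
  have ha1 : 0 < 1 - ‖a‖ ^ 2 := by nlinarith [norm_nonneg a]
  have hr1 : 0 < 1 - r ^ 2 := by nlinarith
  let g₀ : ℝ → ℝ := fun t => (2 * Real.pi)⁻¹ * poissonKernel 0 a (circleMap 0 r t) * ((1 - r ^ 2) / (1 - ‖a‖ ^ 2))
  let σ : ℝ → Multiset ℂ := fun t => circleMap 0 r t ::ₘ s'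
  have hne : ∀ t, 0 < ‖circleMap 0 r t - a‖ ^ 2 := by
    intro t
    have : circleMap 0 r t - a ≠ 0 := by
      intro h0
      have h1 : circleMap 0 r t = a := sub_eq_zero.1 h0
      have h2 := hz t
      rw [h1] at h2
      linarith
    positivity
  have hpk : ∀ t, poissonKernel 0 a (circleMap 0 r t) = (r ^ 2 - ‖a‖ ^ 2) / ‖circleMap 0 r t - a‖ ^ 2 := by
    intro t
    rw [poissonKernel_def, sub_zero, sub_zero, hz]
  refine bound_mix g n S _ σ g₀ (2 * Real.pi) (by positivity) ?_ ?_ ?_ fun t => h _ (hz t)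
  · intro θ
    have hd : DiffContOnCl ℂ (fun b : ℂ => (1 + b * e θ) / (1 - b * e θ)) (Metric.ball 0 r) := by
      apply DifferentiableOn.diffContOnCl
      intro z hz1
      have hz2 : ‖z‖ ≤ r := by
        have := Metric.closure_ball_subset_closedBall hz1
        simpa using this
      have hne1 : 1 - z * e θ ≠ 0 := by
        have := one_sub_ne z (hz2.trans_lt hr) θ
        intro h0
        rw [h0] at this
        simp at this
      have d1 : DifferentiableAt ℂ (fun b : ℂ => 1 + b * e θ) z := by fun_prop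
      have d2 : DifferentiableAt ℂ (fun b : ℂ => 1 - b * e θ) z := by fun_prop
      exact (d1.div d2 hne1).differentiableWithinAt
    have h1 := hd.circleAverage_poissonKernel_smul (w := a) (by simpa using ha)
    rw [Real.circleAverage_def] at h1
    have h2 := congrArg Complex.re h1
    rw [re_kernel, Complex.real_smul, re_ofReal_mul] at h2
    have hcont : Continuous fun t : ℝ => (poissonKernel 0 a • fun b : ℂ => (1 + b * e θ) / (1 - b * e θ)) (circleMap 0 r t) := by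
      have e1 : (fun t : ℝ => (poissonKernel 0 a • fun b : ℂ => (1 + b * e θ) / (1 - b * e θ)) (circleMap 0 r t)) =
          fun t => (((r ^ 2 - ‖a‖ ^ 2) / ‖circleMap 0 r t - a‖ ^ 2 : ℝ) : ℂ) * ((1 + circleMap 0 r t * e θ) / (1 - circleMap 0 r t * e θ)) := by
        funext t
        rw [Pi.smul_apply', hpk, Complex.real_smul]
      rw [e1]
      have cm : Continuous fun t => circleMap 0 r t := continuous_circleMap 0 r
      refine Continuous.mul (continuous_ofReal.comp (Continuous.div (by fun_prop) (by fun_prop) fun t => (hne t).ne')) ?_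
      refine Continuous.div (by fun_prop) (by fun_prop) fun t => ?_
      have := one_sub_ne (circleMap 0 r t) ((hz t).trans_lt hr) θ
      intro h0
      rw [h0] at this
      simp at this
    have h3 := Complex.reCLM.intervalIntegral_comp_comm (hcont.intervalIntegrable (μ := volume) 0 (2 * Real.pi))
    simp only [reCLM_apply] at h3
    rw [← h3] at h2
    have h4 : ∀ t, ((poissonKernel 0 a • fun b : ℂ => (1 + b * e θ) / (1 - b * e θ)) (circleMap 0 r t)).re =
        poissonKernel 0 a (circleMap 0 r t) * ((1 - r ^ 2) * (‖1 - circleMap 0 r t * e θ‖ ^ 2)⁻¹) := by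
      intro t
      rw [Pi.smul_apply', Complex.real_smul, re_ofReal_mul, re_kernel, hz]
    simp_rw [h4] at h2
    rw [w_cons]
    have h5 : ∀ t, g₀ t * w (σ t) θ = ((2 * Real.pi)⁻¹ * (1 - ‖a‖ ^ 2)⁻¹ * w s' θ) *
        (poissonKernel 0 a (circleMap 0 r t) * ((1 - r ^ 2) * (‖1 - circleMap 0 r t * e θ‖ ^ 2)⁻¹)) := by
      intro t
      simp only [g₀, σ]
      rw [w_cons]
      ring
    simp_rw [h5]
    rw [intervalIntegral.integral_const_mul]
    have h6 : (2 * Real.pi)⁻¹ * (1 - ‖a‖ ^ 2)⁻¹ * w s' θ * (∫ t in (0 : ℝ)..2 * Real.pi,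
        poissonKernel 0 a (circleMap 0 r t) * ((1 - r ^ 2) * (‖1 - circleMap 0 r t * e θ‖ ^ 2)⁻¹)) =
        (1 - ‖a‖ ^ 2)⁻¹ * w s' θ * ((2 * Real.pi)⁻¹ * (∫ t in (0 : ℝ)..2 * Real.pi,
        poissonKernel 0 a (circleMap 0 r t) * ((1 - r ^ 2) * (‖1 - circleMap 0 r t * e θ‖ ^ 2)⁻¹))) := by ring
    rw [h6, h2]
    field_simp
  · have e1 : (fun z : ℝ × ℝ => g₀ z.1 * w (σ z.1) z.2) = fun z : ℝ × ℝ => (2 * Real.pi)⁻¹ *
        ((r ^ 2 - ‖a‖ ^ 2) / ‖circleMap 0 r z.1 - a‖ ^ 2) * ((1 - r ^ 2) / (1 - ‖a‖ ^ 2)) *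
        ((‖1 - circleMap 0 r z.1 * e z.2‖ ^ 2)⁻¹ * w s' z.2) := by
      funext z
      simp only [g₀, σ]
      rw [w_cons, hpk]
    rw [e1]
    have cm : Continuous fun z : ℝ × ℝ => circleMap 0 r z.1 := (continuous_circleMap 0 r).comp continuous_fst
    have ce : Continuous fun z : ℝ × ℝ => e z.2 := continuous_e.comp continuous_snd
    have c3 : Continuous fun z : ℝ × ℝ => w s' z.2 := (continuous_w s' hs').comp continuous_snd
    have c4 : Continuous fun z : ℝ × ℝ => (r ^ 2 - ‖a‖ ^ 2) / ‖circleMap 0 r z.1 - a‖ ^ 2 :=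
      Continuous.div (by fun_prop) (by fun_prop) fun z => (hne z.1).ne'
    have c5 : Continuous fun z : ℝ × ℝ => (‖1 - circleMap 0 r z.1 * e z.2‖ ^ 2)⁻¹ :=
      Continuous.inv₀ (by fun_prop) fun z => (one_sub_ne (circleMap 0 r z.1) ((hz z.1).trans_lt hr) z.2).ne'
    exact ((continuous_const.mul c4).mul continuous_const).mul (c5.mul c3)
  · intro t
    simp only [g₀]
    rw [hpk]
    have h1 : 0 ≤ r ^ 2 - ‖a‖ ^ 2 := by nlinarith [norm_nonneg a]
    have h2 := hne t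
    have := Real.pi_pos
    positivity

/-- Q1 for polynomials -/
theorem q1_bound (g : ℂ[X]) (n : ℕ) (hn : 1 ≤ n) (S : ℝ) (r : ℝ) (hr : r < 1)
    (h : ∀ d : ℂ, ‖d‖ ≤ r → Bound g n (Multiset.replicate n d) S)
    (s : Multiset ℂ) (hs : ∀ a ∈ s, ‖a‖ ≤ r) (hcard : Multiset.card s = n) : Bound g n s S := by
  have key : ∀ (s' : Multiset ℂ), (∀ a ∈ s', ‖a‖ ≤ r) → ∀ (m : ℕ), m + 1 + Multiset.card s' = n →
      ∀ c : ℂ, ‖c‖ ≤ r → Bound g n (Multiset.replicate (m + 1) c + s') S := by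
    intro s'
    induction s' using Multiset.induction_on with
    | empty =>
      intro _ m hm c hc
      rw [Multiset.card_zero, add_zero] at hm
      rw [add_zero, hm]
      exact h c hc
    | cons b s' ih =>
      intro hs' m hm c hc
      rw [Multiset.card_cons] at hm
      refine q1_step g n S r hr c b hc (hs' b (Multiset.mem_cons_self b s')) m s'
        (fun a ha => (hs' a (Multiset.mem_cons_of_mem ha)).trans_lt hr) fun d hd => ?_
      exact ih (fun a ha => hs' a (Multiset.mem_cons_of_mem ha)) (m + 1) (by omega) d hd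
  obtain ⟨c, hc⟩ : ∃ c, c ∈ s := Multiset.card_pos_iff_exists_mem.1 (by omega)
  obtain ⟨t, rfl⟩ := Multiset.exists_cons_of_mem hc
  have := key t (fun a ha => hs a (Multiset.mem_cons_of_mem ha)) 0
    (by rw [Multiset.card_cons] at hcard; omega) c (hs c hc)
  simpa [Multiset.replicate_one, Multiset.singleton_add] using this

/-- Q2 for polynomials -/
theorem q2_bound (g : ℂ[X]) (n : ℕ) (S : ℝ) (r : ℝ) (hr : r < 1)
    (h : ∀ s : Multiset ℂ, (∀ a ∈ s, ‖a‖ = r) → Multiset.card s = n → Bound g n s S)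
    (s : Multiset ℂ) (hs : ∀ a ∈ s, ‖a‖ ≤ r) (hcard : Multiset.card s = n) : Bound g n s S := by
  have key : ∀ (s' : Multiset ℂ), (∀ a ∈ s', ‖a‖ ≤ r) → ∀ t : Multiset ℂ, (∀ a ∈ t, ‖a‖ = r) →
      Multiset.card s' + Multiset.card t = n → Bound g n (s' + t) S := by
    intro s'
    induction s' using Multiset.induction_on with
    | empty =>
      intro _ t ht hc
      rw [zero_add]
      exact h t ht (by simpa using hc)
    | cons b s' ih =>
      intro hs' t ht hc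
      rw [Multiset.card_cons] at hc
      have hs'' : ∀ a ∈ s', ‖a‖ ≤ r := fun a ha => hs' a (Multiset.mem_cons_of_mem ha)
      have hB : ∀ d : ℂ, ‖d‖ = r → Bound g n (d ::ₘ (s' + t)) S := by
        intro d hd
        rw [← Multiset.add_cons]
        refine ih hs'' (d ::ₘ t) ?_ (by rw [Multiset.card_cons]; omega)
        intro a ha
        rcases Multiset.mem_cons.1 ha with h1 | h1
        · rw [h1, hd]
        · exact ht a h1
      rw [Multiset.cons_add]
      rcases eq_or_lt_of_le (hs' b (Multiset.mem_cons_self b s')) with h1 | h1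
      · exact hB b h1
      · refine q2_step g n S r hr b h1 (s' + t) ?_ hB
        intro a ha
        rcases Multiset.mem_add.1 ha with h2 | h2
        · exact (hs'' a h2).trans_lt hr
        · rw [ht a h2]; exact hr
  have := key s hs 0 (by simp) (by simpa using hcard)
  simpa using this

end Pool.Agent.H8.Ptak
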